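import Pool.Agent.Y314.HM.Tower
import Pool.Agent.Y872.MON.LimB

/-!
# The limit of the tower of central extensions (helper314)
-/

set_option autoImplicit false

namespace Pool.Agent.Y314.HM

open Pool.Agent.TH54.BU Pool.Agent.Y45.MON Pool.Agent.Y872.MON

theorem tower {r : ℕ} (w : WP r) (j : Fin r) (hδ : w.δ j = 1) {Γ : Type} [CommGroup Γ]
    (G : ℕ → Type) [∀ n, Group (G n)] (f : ∀ n, G n →* G (n + 1)) (Xs : ∀ n, Set (G n)) (p : ℕ)
    (hE : ∀ n, ExtP (fun _ => p) (Xs n) (f n)) (γ : ∀ n, G n →* Γ) (F : Γ → Γ → ℤ)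
    (GP : ∀ n, G n → G n → Prop)
    (h1 : ∀ n, ∀ a b a' b' q : G n, GP n a b → GP n a' b' →
      q * vv w j a b * q⁻¹ = vv w j a' b' → ∃ g, a' = g * a * g⁻¹ ∧ b' = g * b * g⁻¹)
    (h2 : ∀ n, ∀ a b q : G n, GP n a b → q * vv w j a b = vv w j a b * q →
      ∃ t : ℤ, q = vv w j a b ^ t)
    (h3 : ∀ n, ∀ a b a' b' q : G n, GP n a b → GP n a' b' →
      q * vv w j a b * q⁻¹ ≠ (vv w j a' b')⁻¹) (E0 : CE (G 0)) :
    ∃ (E : ∀ n, CE (G n)) (g : ∀ n, (E n).A →* (E (n + 1)).A),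
      (∀ n a, (E (n + 1)).φ (g n a) = f n ((E n).φ a)) ∧ (∀ n, g n (E n).z = (E (n + 1)).z) ∧
      (∀ n, Function.Surjective (g n)) ∧ ∀ (n : ℕ) (a b u : (E n).A),
        GP n ((E n).φ a) ((E n).φ b) → ∀ x ∈ Xs n,
        (x = (E n).φ (u * vv w j a b * u⁻¹) ∨ x⁻¹ = (E n).φ (u * vv w j a b * u⁻¹)) →
        g n (vv w j a b ^ p) = (E (n + 1)).z ^ F (γ n ((E n).φ a)) (γ n ((E n).φ b)) := by
  choose nx gx hx using fun n (E : CE (G n)) =>
    one_step w j hδ (f n) (Xs n) p (hE n) (γ n) F (GP n) (h1 n) (h2 n) (h3 n) E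
  let E : ∀ n, CE (G n) := fun n => Nat.rec E0 (fun n E => nx n E) n
  exact ⟨E, fun n => gx n (E n), fun n => (hx n (E n)).1, fun n => (hx n (E n)).2.1,
    fun n => (hx n (E n)).2.2.1, fun n => (hx n (E n)).2.2.2⟩

theorem dies_z {A : ℕ → Type} [∀ n, Group (A n)] {g : ∀ n, A n →* A (n + 1)} (z : ∀ n, A n)
    (hz : ∀ n, g n (z n) = z (n + 1)) (hi : ∀ n, ∀ k : ℤ, z n ^ k = 1 → k = 0) (k : ℤ) :
    ∀ n (a : A n), Dies g n a → a = z n ^ k → k = 0 := by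
  intro n a h
  induction h with
  | one n => exact fun e => hi n k e.symm
  | step n a h ih =>
    intro e
    apply ih
    rw [e, map_zpow, hz]

/-- homomorphisms from a limit -/
theorem lim_hom {A : ℕ → Type} [∀ n, Group (A n)] {g : ∀ n, A n →* A (n + 1)}
    (hg : ∀ n, Function.Surjective (g n)) {L : Type} [Group L] {ρ : ∀ n, A n →* L}
    (h0 : ∀ n, Function.Surjective (ρ n)) (h1 : ∀ n a, ρ (n + 1) (g n a) = ρ n a)
    (h2 : ∀ n a, ρ n a = 1 → Dies g n a) {K : Type} [Group K] (η : ∀ n, A n →* K)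
    (hη : ∀ n a, η (n + 1) (g n a) = η n a) : ∃ Ψ : L →* K, ∀ n a, Ψ (ρ n a) = η n a := by
  have key : ∀ n (a : A n), Dies g n a → η n a = 1 := by
    intro n a h
    induction h with
    | one n => exact map_one _
    | step n a h ih => rw [← hη, ih]
  have hker : (ρ 0).ker ≤ (η 0).ker := fun a ha => key 0 a (h2 0 a ha)
  refine ⟨(ρ 0).liftOfSurjective (h0 0) ⟨η 0, hker⟩, ?_⟩
  intro n
  induction n with
  | zero =>
    intro a
    exact MonoidHom.liftOfRightInverse_comp_apply _ _ (Function.rightInverse_surjInv (h0 0))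
        ⟨η 0, hker⟩ a
  | succ n ih =>
    intro a
    obtain ⟨b, rfl⟩ := hg n a
    rw [h1, hη]
    exact ih b

section

variable {r : ℕ} {w : WP r} {R0 N : ℕ} {C : Type} {Φ : Fin r → C → C → C}
  {ε : Fin r → C → C → ℕ} {G : ℕ → Type} [∀ n, Group (G n)] {H : ∀ n, GH (G n)}
  {f : ∀ n, G n →* G (n + 1)} {col : ∀ n, G n → C} {Mk : ∀ n, G n → Fin r → C → C → Prop}
  {Xs : ∀ n, Set (G n)} {L : Type} [Group L] {π : ∀ n, G n →* L}

/-- good pairs -/
def GPr (w : WP r) (H : ∀ n, GH (G n)) (f : ∀ n, G n →* G (n + 1)) : ∀ n, G n → G n → Prop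
  | 0 => fun _ _ => False
  | n + 1 => fun a b => ∃ a0 b0 : G n, Gd (H n) a0 b0 (X1 w.M1 w.m2 a0 b0) ∧ a = f n a0 ∧
      b = f n b0

theorem vv_f (n : ℕ) (j : Fin r) (a0 b0 : G n) : vv w j (f n a0) (f n b0) =
    f n (Wj w j a0 b0 (X1 w.M1 w.m2 a0 b0)) := (map_vv (f n) w j a0 b0).symm

theorem gp1 (S : Sq w R0 N Φ ε G H f col Mk Xs) (j : Fin r) : ∀ n, ∀ a b a' b' q : G n,
    GPr w H f n a b → GPr w H f n a' b' →
    q * vv w j a b * q⁻¹ = vv w j a' b' → ∃ g, a' = g * a * g⁻¹ ∧ b' = g * b * g⁻¹ := by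
  rintro (_ | n) a b a' b' q h h' e
  · exact h.elim
  · obtain ⟨a0, b0, k, rfl, rfl⟩ := h
    obtain ⟨a0', b0', k', rfl, rfl⟩ := h'
    rw [vv_f, vv_f] at e
    obtain ⟨-, g, g1, g2⟩ := (((S.st n).wr a0 b0 _ k j).2.2.2.2 a0' b0' _ k' j q).1 e
    exact ⟨f n g, by rw [g1]; simp, by rw [g2]; simp⟩

theorem gp2 (S : Sq w R0 N Φ ε G H f col Mk Xs) (j : Fin r) : ∀ n, ∀ a b q : G n,
    GPr w H f n a b → q * vv w j a b = vv w j a b * q → ∃ t : ℤ, q = vv w j a b ^ t := by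
  rintro (_ | n) a b q h e
  · exact h.elim
  · obtain ⟨a0, b0, k, rfl, rfl⟩ := h
    rw [vv_f] at e ⊢
    exact ((S.st n).wr a0 b0 _ k j).2.2.1 q e

theorem gp3 (S : Sq w R0 N Φ ε G H f col Mk Xs) (j : Fin r) : ∀ n, ∀ a b a' b' q : G n,
    GPr w H f n a b → GPr w H f n a' b' →
    q * vv w j a b * q⁻¹ ≠ (vv w j a' b')⁻¹ := by
  rintro (_ | n) a b a' b' q h h' e
  · exact h.elim
  · obtain ⟨a0, b0, k, rfl, rfl⟩ := h
    obtain ⟨a0', b0', k', rfl, rfl⟩ := h'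
    rw [vv_f, vv_f] at e
    exact (((S.st n).wr a0 b0 _ k j).2.2.2.2 a0' b0' _ k' j q).2 e

/-- copy of `LD.main` with an exact third element -/
theorem main' (D : LD w R0 N Φ ε G H f col Mk Xs L π) (A B : L) (hAB : A * B ≠ B * A) :
    ∃ (n : ℕ) (h0 : L) (a b : G (n + 1)), Gd (H (n + 1)) a b (X1 w.M1 w.m2 a b) ∧
      π (n + 1) a = h0 * A * h0⁻¹ ∧ π (n + 1) b = h0 * B * h0⁻¹ := by
  let S : ℕ → Prop := fun m => ∃ (a b : G m) (h : L), π m a = h * A * h⁻¹ ∧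
    π m b = h * B * h⁻¹ ∧ IsOfFinOrder a ∧ IsOfFinOrder (P0 w.M1 a b)
  have hS : ∃ m, S m := by
    obtain ⟨a, ha⟩ := D.sur 0 A
    obtain ⟨b, hb⟩ := D.sur 0 B
    obtain ⟨m, a', b', h1, h2, h3, h4⟩ := D.ev (max ((H 0).len a) ((H 0).len (P0 w.M1 a b))) 0
      a b (le_max_left _ _) (le_max_right _ _)
    exact ⟨m, a', b', 1, by simp [h1, ha], by simp [h2, hb], h3, h4⟩
  classical
  obtain ⟨m, hm, hmin⟩ : ∃ m, S m ∧ ∀ k < m, ¬ S k :=
    ⟨Nat.find hS, Nat.find_spec hS, fun k hk => Nat.find_min hS hk⟩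
  obtain ⟨a', b', h, h1, h2, h3, h4⟩ := hm
  have hA : A ≠ 1 := by rintro rfl; simp at hAB
  have hB : B ≠ 1 := by rintro rfl; simp at hAB
  cases m with
  | zero =>
    exfalso
    have h5 : a' = 1 := D.sq.free a' h3
    rw [h5, map_one] at h1
    exact hA (conj_eq_one_iff.1 h1.symm)
  | succ n =>
    have hab : a' * b' ≠ b' * a' := by
      intro e
      apply hAB
      have e1 := congrArg (π (n + 1)) e
      rw [map_mul, map_mul, h1, h2] at e1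
      have e2 : h * (A * B) * h⁻¹ = h * (B * A) * h⁻¹ := by
        rw [show h * (A * B) * h⁻¹ = h * A * h⁻¹ * (h * B * h⁻¹) by group, e1]
        group
      exact mul_left_cancel (mul_right_cancel e2)
    obtain ⟨a1, b1, k, h5, h6, h7, h8, h9⟩ := (D.sq.st n).pb a' b' h3 hab h4
    have e1 : π (n + 1) (f n a1) = (π (n + 1) k * h) * A * (π (n + 1) k * h)⁻¹ := by
      rw [h8, map_mul, map_mul, map_inv, h1]
      group
    have e2 : π (n + 1) (f n b1) = (π (n + 1) k * h) * B * (π (n + 1) k * h)⁻¹ := by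
      rw [h9, map_mul, map_mul, map_inv, h2]
      group
    have ha1 : a1 ≠ 1 := by
      rintro rfl
      rw [map_one, map_one] at e1
      exact hA (conj_eq_one_iff.1 e1.symm)
    have hb1 : b1 ≠ 1 := by
      rintro rfl
      rw [map_one, map_one] at e2
      exact hB (conj_eq_one_iff.1 e2.symm)
    have h10 : ¬ IsOfFinOrder (P0 w.M1 a1 b1) := fun h10 => hmin n (by omega)
      ⟨a1, b1, π (n + 1) k * h, (D.cmp n a1).symm.trans e1, (D.cmp n b1).symm.trans e2, h5, h10⟩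
    have h11 : IsOfFinOrder (f n (P0 w.M1 a1 b1)) := by
      rw [map_P0, h8, h9, conj_P0]
      exact cf _ _ h4
    have l1 : (H n).len a1 ≤ 1 := by simpa using h6 1
    have l2 : (H n).len (a1 ^ 2) ≤ 1 := by
      have := h6 2
      rwa [zpow_ofNat] at this
    obtain ⟨x1, x2, x3⟩ := (D.sq.st n).xa a1 b1 h5 h6 h7 h10 h11
    have l3 : (H (n + 1)).len (f n b1) ≤ 1 := (D.sq.st n).len0 _ h7
    refine ⟨n, π (n + 1) k * h, f n a1, f n b1, ?_, e1, e2⟩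
    rw [← map_X1]
    refine ⟨?_, l3, x2, x1, ?_, ?_, ?_⟩
    · exact (D.sq.st n).len0 _ (l1.trans D.R1)
    · exact x3 a1 (l1.trans D.R1) ha1
    · have := x3 (a1 ^ 2) (l2.trans D.R1) (LD.sq_ne D.N3 (D.sq.tor n a1 h5) ha1)
      rwa [map_pow] at this
    · exact x3 b1 h7 hb1

/-- commuting elements are powers of one element -/
theorem cyc (D : LD w R0 N Φ ε G H f col Mk Xs L π) {a b : L} (h : b * a = a * b) :
    ∃ (c : L) (i k : ℤ), a = c ^ i ∧ b = c ^ k := by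
  by_cases ha : a = 1
  · exact ⟨b, 0, 1, by rw [ha, zpow_zero], by rw [zpow_one]⟩
  obtain ⟨g, hg, hga⟩ := D.rk_mem a
  have hmin : ∀ (m : ℕ) (g : G m), IsOfFinOrder g → π m g = a → rk π a ≤ m :=
    fun m g h1 h2 => h2 ▸ rk_le h1
  generalize rk π a = m at *
  cases m with
  | zero => exact absurd (by rw [← hga, D.sq.free g hg, map_one]) ha
  | succ n =>
    rcases (D.sq.st n).tor g hg with ⟨g0, h1, h2⟩ | ⟨x, hx, u, k, h1⟩
    · have := hmin n g0 h2 (by rw [← hga, ← h1, D.cmp])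
      omega
    · have h3 : f n (x ^ k) ≠ 1 := by
        intro h3
        apply ha
        rw [← hga, ← h1, (LD.oneX n x u k).2 h3, map_one]
      obtain ⟨s, hs⟩ := D.centr n x hx u k h3 b (by rw [← D.cmp, h1, hga]; exact h)
      refine ⟨π n (u * x * u⁻¹), k, s, ?_, ?_⟩
      · rw [← hga, ← h1, D.cmp, ← map_zpow, conj_zpow]
      · rw [hs, ← map_zpow, conj_zpow]

/-- the primitive element of the last step -/
theorem prim' (S : Sq w R0 N Φ ε G H f col Mk Xs) (j : Fin r) (n : ℕ) (a b : G n)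
    (hg : Gd (H n) a b (X1 w.M1 w.m2 a b)) : ∃ x ∈ Xs (n + 1), ∃ u : G (n + 1),
      x = u * vv w j (f n a) (f n b) * u⁻¹ ∨ x⁻¹ = u * vv w j (f n a) (f n b) * u⁻¹ := by
  obtain ⟨v1, v2, v3, -, -⟩ := (S.st n).wr a b _ hg j
  obtain ⟨x, hx, u, k, hV⟩ := (S.st (n + 1)).short _ v1 v2
  obtain ⟨hx1, hx2⟩ := (S.st (n + 1)).prim x hx
  have hk : k = 1 ∨ k = -1 := by
    obtain ⟨t, ht⟩ := v3 (u * x * u⁻¹) (by rw [hV]; group)
    rw [hV] at ht
    have e1 : (u * x ^ k * u⁻¹) ^ t = u * x ^ (k * t) * u⁻¹ := by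
      rw [zpow_mul, conj_zpow]
    rw [e1] at ht
    have e2 : x = x ^ (k * t) := mul_left_cancel (mul_right_cancel ht)
    have e3 : x ^ (k * t - 1) = 1 := by
      rw [zpow_sub, ← e2, zpow_one, mul_inv_cancel]
    have e4 : k * t - 1 = 0 := by
      by_contra h
      exact hx1 (isOfFinOrder_iff_zpow_eq_one.2 ⟨_, h, e3⟩)
    exact Int.eq_one_or_neg_one_of_mul_eq_one (show k * t = 1 by omega)
  refine ⟨x, hx, u⁻¹, ?_⟩
  rw [vv_f, hV]
  rcases hk with rfl | rfl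
  · left
    group
  · right
    group

/-- the limit of the extensions -/
theorem limE (D : LD w R0 N Φ ε G H f col Mk Xs L π) (j : Fin r) (hδ : w.δ j = 1) {Γ : Type}
    [CommGroup Γ] (γ : ∀ n, G n →* Γ) (hγ : ∀ n a, γ (n + 1) (f n a) = γ n a) (p : ℕ)
    (hE : ∀ n, ExtP (fun _ => p) (Xs n) (f n)) (F : Γ → Γ → ℤ)
    (hF : ∀ (c : Γ) (i k : ℤ), F (c ^ i) (c ^ k) = 0) (E0 : CE (G 0)) :
    ∃ (A : Type) (_ : Group A) (z : A) (Θ : A →* Γ), (∀ k : ℤ, z ^ k = 1 → k = 0) ∧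
      (∀ a b : A, vv w j a b ^ p = z ^ F (Θ a) (Θ b)) ∧ ∀ g : G 0, ∃ a : A, Θ a = γ 0 g := by
  obtain ⟨E, g, g1, g2, g3, g4⟩ := tower w j hδ G f Xs p hE γ F (GPr w H f) (gp1 D.sq j)
    (gp2 D.sq j) (gp3 D.sq j) E0
  obtain ⟨A, iA, ρ, r1, r2, r3⟩ := exists_lim (G := fun n => (E n).A) g g3
  obtain ⟨z, hz⟩ : ∃ z, z = ρ 0 (E 0).z := ⟨_, rfl⟩
  have hzn : ∀ n, ρ n (E n).z = z := by
    intro n
    induction n with
    | zero => exact hz.symm
    | succ n ih => rw [← g2, r2, ih]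
  have hzk : ∀ n (k : ℤ), ρ n ((E n).z ^ k) = z ^ k := fun n k => by rw [map_zpow, hzn]
  have hcen : ∀ (a : A) (k : ℤ), a * z ^ k = z ^ k * a := by
    intro a k
    obtain ⟨a, rfl⟩ := r1 0 a
    rw [← hzk 0, ← map_mul, ← map_mul, (E 0).cz]
  have hinf : ∀ k : ℤ, z ^ k = 1 → k = 0 := by
    intro k hk
    rw [← hzk 0] at hk
    exact dies_z (A := fun n => (E n).A) (fun n => (E n).z) g2 (fun n => (E n).inf) k 0 _
      (r3 0 _ hk) rfl
  obtain ⟨Ψ, hΨ⟩ := lim_hom (A := fun n => (E n).A) g3 r1 r2 r3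
    (fun n => (π n).comp (E n).φ) (fun n a => by
      show π (n + 1) ((E (n + 1)).φ (g n a)) = π n ((E n).φ a)
      rw [g1, D.cmp])
  obtain ⟨Θ, hΘ⟩ := lim_hom (A := fun n => (E n).A) g3 r1 r2 r3
    (fun n => (γ n).comp (E n).φ) (fun n a => by
      show γ (n + 1) ((E (n + 1)).φ (g n a)) = γ n ((E n).φ a)
      rw [g1, hγ])
  have hΨs : Function.Surjective Ψ := by
    intro y
    obtain ⟨x, rfl⟩ := D.sur 0 y
    obtain ⟨a, rfl⟩ := (E 0).sur x
    exact ⟨ρ 0 a, hΨ 0 a⟩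
  have hker : ∀ a : A, Ψ a = 1 → ∃ k : ℤ, a = z ^ k := by
    intro a ha
    obtain ⟨a, rfl⟩ := r1 0 a
    rw [hΨ] at ha
    have key : ∀ n (y : G n), Dies f n y → ∀ a : (E n).A, (E n).φ a = y →
        ∃ k : ℤ, ρ n a = z ^ k := by
      intro n y h
      induction h with
      | one n =>
        intro a ha
        obtain ⟨k, hk⟩ := (E n).ker a ha
        exact ⟨k, by rw [hk, hzk]⟩
      | step n y h ih =>
        intro a ha
        obtain ⟨k, hk⟩ := ih (g n a) (by rw [g1, ha])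
        exact ⟨k, by rw [← hk, r2]⟩
    exact key 0 _ (D.ker 0 _ ha) a rfl
  have hlift : ∀ a b : A, Ψ a = Ψ b → ∃ k : ℤ, a = b * z ^ k := by
    intro a b h
    obtain ⟨k, hk⟩ := hker (b⁻¹ * a) (by rw [map_mul, map_inv, h, inv_mul_cancel])
    exact ⟨k, by rw [← hk, mul_inv_cancel_left]⟩
  have hΘz : ∀ k : ℤ, Θ (z ^ k) = 1 := by
    intro k
    rw [← hzk 0, hΘ]
    show γ 0 ((E 0).φ _) = 1
    rw [(E 0).zz, map_one]
  refine ⟨A, iA, z, Θ, hinf, ?_, ?_⟩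
  · intro a b
    by_cases hab : Ψ a * Ψ b = Ψ b * Ψ a
    · obtain ⟨c0, i, k, h1, h2⟩ := cyc D hab.symm
      obtain ⟨c, rfl⟩ := hΨs c0
      obtain ⟨m, hm⟩ := hlift a (c ^ i) (by rw [map_zpow, h1])
      obtain ⟨l, hl⟩ := hlift b (c ^ k) (by rw [map_zpow, h2])
      have e1 : Θ a = Θ c ^ i := by rw [hm, map_mul, hΘz, mul_one, map_zpow]
      have e2 : Θ b = Θ c ^ k := by rw [hl, map_mul, hΘz, mul_one, map_zpow]
      rw [e1, e2, hF, zpow_zero, vv_comm w j hδ a b, one_pow]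
      have c1 : Commute (c ^ i) (c ^ k) := (Commute.refl c).zpow_zpow i k
      have c2 : Commute (c ^ i) (z ^ l) := hcen _ _
      have c3 : Commute (z ^ m) (c ^ k * z ^ l) := (hcen _ _).symm
      rw [hm, hl]
      exact (Commute.mul_left (c1.mul_right c2) c3).eq
    · obtain ⟨n, h0, a1, b1, k1, k2, k3⟩ := main' D _ _ hab
      obtain ⟨x, hx, u0, hxu⟩ := prim' D.sq j (n + 1) a1 b1 k1
      obtain ⟨a2, ha2⟩ := (E (n + 2)).sur (f (n + 1) a1)
      obtain ⟨b2, hb2⟩ := (E (n + 2)).sur (f (n + 1) b1)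
      obtain ⟨u, rfl⟩ := (E (n + 2)).sur u0
      have e1 := g4 (n + 2) a2 b2 u ⟨a1, b1, k1, ha2, hb2⟩ x hx (by
        rw [map_mul, map_mul, map_inv, map_vv, ha2, hb2]
        exact hxu)
      have e2 := congrArg (ρ (n + 3)) e1
      rw [r2, map_pow, map_vv, hzk] at e2
      obtain ⟨h, rfl⟩ := hΨs h0
      have q1 : Ψ (ρ (n + 2) a2) = Ψ (h * a * h⁻¹) := by
        rw [hΨ]
        show π (n + 2) ((E (n + 2)).φ a2) = _
        rw [ha2, D.cmp, k2]
        simp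
      have q2 : Ψ (ρ (n + 2) b2) = Ψ (h * b * h⁻¹) := by
        rw [hΨ]
        show π (n + 2) ((E (n + 2)).φ b2) = _
        rw [hb2, D.cmp, k3]
        simp
      obtain ⟨m, hm⟩ := hlift _ _ q1
      obtain ⟨l, hl⟩ := hlift _ _ q2
      have t1 : γ (n + 2) ((E (n + 2)).φ a2) = Θ a := by
        have : Θ (ρ (n + 2) a2) = γ (n + 2) ((E (n + 2)).φ a2) := hΘ _ _
        rw [← this, hm, map_mul, hΘz, mul_one, map_mul, map_mul, map_inv, mul_comm,
          inv_mul_cancel_left]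
      have t2 : γ (n + 2) ((E (n + 2)).φ b2) = Θ b := by
        have : Θ (ρ (n + 2) b2) = γ (n + 2) ((E (n + 2)).φ b2) := hΘ _ _
        rw [← this, hl, map_mul, hΘz, mul_one, map_mul, map_mul, map_inv, mul_comm,
          inv_mul_cancel_left]
      rw [t1, t2, hm, hl, vv_cen w j hδ _ _ _ _ (fun y => (hcen y m).symm)
        (fun y => (hcen y l).symm), conj_vv, conj_pow] at e2
      have e3 : vv w j a b ^ p = h⁻¹ * (h * vv w j a b ^ p * h⁻¹) * h := by group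
      rw [e3, e2, hcen]
      group
  · intro x
    obtain ⟨a, rfl⟩ := (E 0).sur x
    exact ⟨ρ 0 a, hΘ 0 a⟩

end

end Pool.Agent.Y314.HM
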