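import Pool.Agent.Y314.HM.SeqE
import Pool.Agent.Y314.HM.Lim
import Pool.Agent.Y45.MON.Main

/-!
# The word and the group (helper314)
-/

set_option autoImplicit false

namespace Pool.Agent.Y314.HM

open Pool.Agent.TH54.BU Pool.Agent.Y45.MON Pool.Agent.Y872.MON

theorem stepE : StepStmtE :=
  stepJobE aWr aXa aPb aGr aQuo aStabTor aMix aOrd aConjN aConjO aConjT

theorem sqE : SqStmtE := limAE stepE

theorem exo_const {r : ℕ} {C G : Type} [Group G] (N : ℕ) (Mk : G → Fin r → C → C → Prop) :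
    exo N (fun _ _ _ => N) Mk = fun _ => N := by
  funext g
  unfold exo
  split_ifs <;> rfl

/-- the trivial central extension -/
def triv (G : Type) [Group G] : CE G where
  A := G × Multiplicative ℤ
  grp := inferInstance
  φ := MonoidHom.fst _ _
  sur := fun g => ⟨(g, 1), rfl⟩
  z := (1, Multiplicative.ofAdd 1)
  cen := fun a => by
    ext
    · simp
    · simp [mul_comm]
  ker := fun a h => by
    refine ⟨Multiplicative.toAdd a.2, ?_⟩
    have h1 : a.1 = 1 := h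
    ext
    · simp [h1]
    · simp [← ofAdd_zsmul]
  z1 := rfl
  inf := fun k h => by
    have h1 := congrArg (fun x => Multiplicative.toAdd x.2) h
    simpa [← ofAdd_zsmul] using h1

theorem ext_hom {G G' Γ : Type} [Group G] [Group G'] [CommGroup Γ] (f : G →* G')
    (hf : Function.Surjective f) (Xs : Set G) (p : ℕ) (hK : KerP (fun _ => p) Xs f)
    (hΓ : ∀ c : Γ, c ^ p = 1) (γ : G →* Γ) : ∃ γ' : G' →* Γ, ∀ a, γ' (f a) = γ a := by
  have h1 : f.ker ≤ γ.ker := by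
    rw [show f.ker = _ from hK]
    refine Subgroup.normalClosure_le_normal ?_
    rintro _ ⟨x, -, rfl⟩
    show γ (x ^ p) = 1
    rw [map_pow, hΓ]
  exact ⟨f.liftOfSurjective hf ⟨γ, h1⟩, fun a =>
    MonoidHom.liftOfRightInverse_comp_apply _ _ (Function.rightInverse_surjInv hf) ⟨γ, h1⟩ a⟩

theorem core : ∃ (w : WP 1) (p : ℕ) (A Γ : Type) (_ : Group A) (_ : CommGroup Γ) (_ : Finite Γ)
    (z : A) (Θ : A →* Γ) (F : Γ → Γ → ℤ), (∀ k : ℤ, z ^ k = 1 → k = 0) ∧
    (∀ a b : A, vv w 0 a b ^ p = z ^ F (Θ a) (Θ b)) ∧ ∃ a b : A, F (Θ a) (Θ b) = 1 := by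
  classical
  obtain ⟨w, R0, n0, hw, hR0, hn0, hsq⟩ := sqE 1 (fun _ => 1) (fun _ => Or.inl rfl)
  obtain ⟨p, hpn, hp⟩ := Nat.exists_infinite_primes n0
  have hq : ∀ q : ℕ, q.Prime → q ∣ p → n0 ≤ q := by
    intro q hq hqp
    rw [(Nat.prime_dvd_prime_iff_eq hq hp).1 hqp]
    exact hpn
  have hε : ∀ (j : Fin 1) (c c' : Unit), (fun (_ : Fin 1) (_ _ : Unit) => p) j c c' ∣ p ∧
      (fun (_ : Fin 1) (_ _ : Unit) => p) j c c' ≠ 1 := fun _ _ _ => ⟨dvd_rfl, hp.one_lt.ne'⟩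
  obtain ⟨G, iG, H, f, col, Mk, Xs, hS, hE, hK, ⟨e0⟩⟩ := hsq p hp.one_lt.ne' hq Unit ⟨()⟩
    (fun _ _ _ => ()) (fun _ _ _ => p) hε
  simp only [exo_const] at hE hK
  haveI : Fact p.Prime := ⟨hp⟩
  -- the colours
  let Γ := Multiplicative (ZMod p × ZMod p)
  have hΓ : ∀ c : Γ, c ^ p = 1 := by
    intro c
    apply Multiplicative.toAdd.injective
    rw [toAdd_pow, toAdd_one]
    ext <;> simp
  let c1 : Γ := Multiplicative.ofAdd (1, 0)
  let c2 : Γ := Multiplicative.ofAdd (0, 1)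
  let γ0 : G 0 →* Γ := (FreeGroup.lift ![c1, c2]).comp e0.toMonoidHom
  choose nx hnx using fun n (γ : G n →* Γ) =>
    ext_hom (f n) (hS.st n).surj (Xs n) p (hK n) hΓ γ
  let γ : ∀ n, G n →* Γ := fun n => Nat.rec γ0 (fun n γ => nx n γ) n
  have hγ : ∀ n a, γ (n + 1) (f n a) = γ n a := fun n a => hnx n (γ n) a
  let F : Γ → Γ → ℤ := fun c d => if c = c1 ∧ d = c2 then 1 else 0
  have hF : ∀ (c : Γ) (i k : ℤ), F (c ^ i) (c ^ k) = 0 := by
    intro c i k
    show (if c ^ i = c1 ∧ c ^ k = c2 then (1 : ℤ) else 0) = 0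
    rw [if_neg]
    rintro ⟨h1, h2⟩
    have h3 := congrArg Multiplicative.toAdd h1
    have h4 := congrArg Multiplicative.toAdd h2
    rw [toAdd_zpow] at h3 h4
    have a1 : (i : ZMod p) * (Multiplicative.toAdd c).1 = 1 := by
      have := congrArg Prod.fst h3
      simpa [c1, zsmul_eq_mul] using this
    have a2 : (i : ZMod p) * (Multiplicative.toAdd c).2 = 0 := by
      have := congrArg Prod.snd h3
      simpa [c1, zsmul_eq_mul] using this
    have a4 : (k : ZMod p) * (Multiplicative.toAdd c).2 = 1 := by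
      have := congrArg Prod.snd h4
      simpa [c2, zsmul_eq_mul] using this
    have a5 : (i : ZMod p) ≠ 0 := by
      intro h
      rw [h, zero_mul] at a1
      exact zero_ne_one a1
    have a6 : (Multiplicative.toAdd c).2 = 0 := (mul_eq_zero.1 a2).resolve_left a5
    rw [a6, mul_zero] at a4
    exact zero_ne_one a4
  obtain ⟨L, iL, π, p1, p2, p3⟩ := exists_lim f (fun n => (hS.st n).surj)
  let D : LD w R0 p (fun _ _ _ => ()) (fun _ _ _ => p) G H f col Mk Xs L π :=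
    ⟨hS, hR0, fun q h1 h2 => hn0.trans (hq q h1 h2), hε, p1, p2, p3⟩
  obtain ⟨A, iA, z, Θ, h1, h2, h3⟩ := limE D 0 (by rw [hw]) γ hγ p hE F hF (triv (G 0))
  haveI : Finite Γ := inferInstanceAs (Finite (ZMod p × ZMod p))
  refine ⟨w, p, A, Γ, iA, inferInstance, inferInstance, z, Θ, F, h1, h2, ?_⟩
  obtain ⟨a, ha⟩ := h3 (e0.symm (FreeGroup.of 0))
  obtain ⟨b, hb⟩ := h3 (e0.symm (FreeGroup.of 1))
  refine ⟨a, b, ?_⟩
  have e1 : Θ a = c1 := by
    rw [ha]
    show FreeGroup.lift ![c1, c2] (e0 (e0.symm (FreeGroup.of 0))) = c1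
    rw [MulEquiv.apply_symm_apply]
    simp
  have e2 : Θ b = c2 := by
    rw [hb]
    show FreeGroup.lift ![c1, c2] (e0 (e0.symm (FreeGroup.of 1))) = c2
    rw [MulEquiv.apply_symm_apply]
    simp
  rw [e1, e2]
  exact if_pos ⟨rfl, rfl⟩

end Pool.Agent.Y314.HM
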