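import Pool.Agent.Y314.HM.Tower2
import Pool.Agent.Y314.HM.Main

/-!
# Word-defined group operations (helper314)
-/

set_option autoImplicit false

namespace Pool.Agent.Y314.HM

open Pool.Agent.TH54.BU Pool.Agent.Y45.MON Pool.Agent.Y872.MON

/-- a group of large prime exponent with many central extensions -/
theorem coreL (r : ℕ) : ∃ (w : WP r) (n0 : ℕ), (∀ j, w.δ j = 1) ∧ ∀ p : ℕ, p.Prime → n0 ≤ p →
    ∃ (L : Type) (_ : Group L), (∀ g : L, g ^ p = 1) ∧
      (∃ x y : L, Subgroup.closure {x, y} = ⊤ ∧ x * y ≠ y * x) ∧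
      (∀ a b : L, a * b = b * a → ∃ (c : L) (i k : ℤ), a = c ^ i ∧ b = c ^ k) ∧
      (∀ (j : Fin r) (a b : L), a * b ≠ b * a → vv w j a b ≠ 1) ∧
      ∀ F : Fin r → L → L → ℤ, (∀ j a b, a * b = b * a → F j a b = 0) →
        (∀ j g c d, F j (g * c * g⁻¹) (g * d * g⁻¹) = F j c d) →
        ∃ B : CE L, (∀ (j : Fin r) (a b : B.A), vv w j a b ^ p = B.z ^ F j (B.φ a) (B.φ b)) ∧
          ((∀ j a b, (p : ℤ) ∣ F j a b) → ∀ g : L, ∃ b : B.A, B.φ b = g ∧ b ^ p = 1) := by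
  classical
  obtain ⟨w, R0, n0, hw, hR0, hn0, hsq⟩ := sqE r (fun _ => 1) (fun _ => Or.inl rfl)
  refine ⟨w, n0, fun j => by rw [hw], fun p hp hpn => ?_⟩
  have hq : ∀ q : ℕ, q.Prime → q ∣ p → n0 ≤ q := by
    intro q hq hqp
    rw [(Nat.prime_dvd_prime_iff_eq hq hp).1 hqp]
    exact hpn
  have hε : ∀ (j : Fin r) (c c' : Unit), (fun (_ : Fin r) (_ _ : Unit) => p) j c c' ∣ p ∧
      (fun (_ : Fin r) (_ _ : Unit) => p) j c c' ≠ 1 := fun _ _ _ => ⟨dvd_rfl, hp.one_lt.ne'⟩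
  obtain ⟨G, iG, H, f, col, Mk, Xs, hS, hE, hK, ⟨e0⟩⟩ := hsq p hp.one_lt.ne' hq Unit ⟨()⟩
    (fun _ _ _ => ()) (fun _ _ _ => p) hε
  simp only [exo_const] at hE hK
  obtain ⟨L, iL, π, p1, p2, p3⟩ := exists_lim f (fun n => (hS.st n).surj)
  let D : LD w R0 p (fun _ _ _ => ()) (fun _ _ _ => p) G H f col Mk Xs L π :=
    ⟨hS, hR0, fun q h1 h2 => hn0.trans (hq q h1 h2), hε, p1, p2, p3⟩
  have hM := D.monP
  refine ⟨L, iL, hM.exp, hM.gen, fun a b h => cyc D h.symm, ?_, ?_⟩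
  · intro j a b hab h
    have h1 := hM.ord j a b hab
    rw [h, orderOf_one] at h1
    exact hp.one_lt.ne h1
  · intro F hF hFc
    exact limE2 D (fun j => by rw [hw]) p hE F hF hFc (triv (G 0))

section twist

variable {L : Type} [Group L]

/-- the twisted group -/
structure Tw (E : CE L) where
  v : E.A

theorem twist (E : CE L) (F : L → L → ℤ)
    (h1 : ∀ a b c, F a b + F (a * b) c = F b c + F a (b * c)) (h2 : ∀ a, F a⁻¹ a = 0)
    (h3 : ∀ a, F 1 a = 0) : ∃ (H : Type) (_ : Group H) (e : H ≃ E.A),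
      ∀ a b, e (a * b) = e a * e b * E.z ^ F (E.φ (e a)) (E.φ (e b)) := by
  letI m : Mul (Tw E) := ⟨fun a b => ⟨a.v * b.v * E.z ^ F (E.φ a.v) (E.φ b.v)⟩⟩
  letI o : One (Tw E) := ⟨⟨1⟩⟩
  letI i : Inv (Tw E) := ⟨fun a => ⟨a.v⁻¹⟩⟩
  have hz : ∀ (a b : E.A) (k : ℤ), a * E.z ^ k * b = a * b * E.z ^ k := by
    intro a b k
    rw [mul_assoc, ← E.cz, mul_assoc]
  have hmul : ∀ a b : Tw E, a * b = ⟨a.v * b.v * E.z ^ F (E.φ a.v) (E.φ b.v)⟩ := fun _ _ => rfl
  refine ⟨Tw E, Group.ofLeftAxioms ?_ ?_ ?_, ⟨fun a => a.v, fun a => ⟨a⟩, fun _ => rfl,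
    fun _ => rfl⟩, fun a b => rfl⟩
  · intro a b c
    rw [hmul, hmul, hmul, hmul]
    congr 1
    simp only [map_mul, E.zz, mul_one]
    rw [hz, mul_assoc (a.v * b.v * c.v), ← zpow_add, h1, zpow_add]
    simp only [mul_assoc]
  · intro a
    rw [hmul]
    show (⟨1 * a.v * E.z ^ F (E.φ 1) (E.φ a.v)⟩ : Tw E) = a
    rw [map_one, h3, zpow_zero, one_mul, mul_one]
  · intro a
    rw [hmul]
    show (⟨a.v⁻¹ * a.v * E.z ^ F (E.φ a.v⁻¹) (E.φ a.v)⟩ : Tw E) = ⟨1⟩
    rw [map_inv, h2, zpow_zero, inv_mul_cancel, one_mul]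

end twist

/-- the counterexample -/
theorem cooper : ∃ (G H : Type) (_ : Group G) (_ : Group H) (e : H ≃ G) (v : FreeGroup (Fin 2))
    (w : FreeGroup ℕ), (∀ a b : H, e (a * b) = FreeGroup.lift (![e a, e b] : Fin 2 → G) v) ∧
    (∀ f : ℕ → G, FreeGroup.lift f w = 1) ∧ ∃ f : ℕ → H, FreeGroup.lift f w ≠ 1 := by
  classical
  obtain ⟨w, n0, hδ, hcore⟩ := coreL 2
  obtain ⟨p, hpn, hp⟩ := Nat.exists_infinite_primes n0
  obtain ⟨L, iL, hexp, ⟨x0, y0, -, hxy⟩, hcyc, -, hext⟩ := hcore p hp hpn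
  have hp0 : (p : ℤ) ≠ 0 := by exact_mod_cast hp.ne_zero
  -- the first extension
  have hcm : ∀ g a b : L, (g * a * g⁻¹) * (g * b * g⁻¹) = (g * b * g⁻¹) * (g * a * g⁻¹) ↔
      a * b = b * a := by
    intro g a b
    have e1 : (g * a * g⁻¹) * (g * b * g⁻¹) = g * (a * b) * g⁻¹ := by group
    have e2 : (g * b * g⁻¹) * (g * a * g⁻¹) = g * (b * a) * g⁻¹ := by group
    rw [e1, e2]
    constructor
    · intro h
      exact mul_left_cancel (mul_right_cancel h)
    · intro h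
      rw [h]
  obtain ⟨B, hB1, hB2⟩ := hext
    (fun j a b => if a * b = b * a then 0 else if j = 0 then (p : ℤ) else 0)
    (fun j a b h => if_pos h) (fun j g c d => by simp only [hcm])
  have hB3 := hB2 (fun j a b => by
    split_ifs
    · exact dvd_zero _
    · exact dvd_rfl
    · exact dvd_zero _)
  choose s hs1 hs2 using hB3
  have hzi : ∀ (E : CE L) (k l : ℤ), E.z ^ k = E.z ^ l → k = l := by
    intro E k l h
    have h1 : E.z ^ (k - l) = 1 := by
      rw [zpow_sub]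
      exact mul_inv_eq_one.2 h
    have := E.inf _ h1
    omega
  have huniq : ∀ b : B.A, b ^ p = 1 → b = s (B.φ b) := by
    intro b hb
    obtain ⟨k, hk⟩ := B.lift (a := b) (b := s (B.φ b)) (by rw [hs1])
    have c1 : Commute (s (B.φ b)) (B.z ^ k) := B.cz _ _
    rw [hk, c1.mul_pow, hs2, one_mul, ← zpow_natCast, ← zpow_mul] at hb
    have h1 := B.inf _ hb
    have h2 : k = 0 := (mul_eq_zero.1 h1).resolve_right hp0
    rw [h2, zpow_zero, mul_one] at hk
    exact hk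
  choose F hF using fun a b : L => B.lift (a := s a * s b) (b := s (a * b))
    (by rw [map_mul, hs1, hs1, hs1])
  have hspow : ∀ (c : L) (i : ℤ), s (c ^ i) = s c ^ i := by
    intro c i
    have := huniq (s c ^ i) (by
      rw [← zpow_natCast, ← zpow_mul, mul_comm, zpow_mul, zpow_natCast, hs2, one_zpow])
    rw [map_zpow, hs1] at this
    exact this.symm
  have hsconj : ∀ g c : L, s (g * c * g⁻¹) = s g * s c * (s g)⁻¹ := by
    intro g c
    have := huniq (s g * s c * (s g)⁻¹) (by rw [conj_pow, hs2, mul_one, mul_inv_cancel])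
    rw [map_mul, map_mul, map_inv, hs1, hs1] at this
    exact this.symm
  have hs0 : s 1 = 1 := by
    have := huniq 1 (one_pow _)
    rw [map_one] at this
    exact this.symm
  have hF1 : ∀ a b : L, a * b = b * a → F a b = 0 := by
    intro a b h
    obtain ⟨c, i, k, rfl, rfl⟩ := hcyc a b h
    have h1 := hF (c ^ i) (c ^ k)
    rw [hspow, hspow, ← zpow_add, ← zpow_add, hspow] at h1
    exact B.inf _ (left_eq_mul.1 h1)
  have hF2 : ∀ g c d : L, F (g * c * g⁻¹) (g * d * g⁻¹) = F c d := by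
    intro g c d
    have h1 := hF (g * c * g⁻¹) (g * d * g⁻¹)
    have e1 : (g * c * g⁻¹) * (g * d * g⁻¹) = g * (c * d) * g⁻¹ := by group
    rw [e1, hsconj, hsconj, hsconj] at h1
    have e2 : s g * s c * (s g)⁻¹ * (s g * s d * (s g)⁻¹) = s g * (s c * s d) * (s g)⁻¹ := by
      group
    rw [e2, hF c d] at h1
    have e3 : s g * (s (c * d) * B.z ^ F c d) * (s g)⁻¹ =
        s g * s (c * d) * (s g)⁻¹ * B.z ^ F c d := by
      have : s g * (s (c * d) * B.z ^ F c d) * (s g)⁻¹ =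
        s g * s (c * d) * (B.z ^ F c d * (s g)⁻¹) := by group
      rw [this, ← B.cz]
      group
    rw [e3] at h1
    exact (hzi B _ _ (mul_left_cancel h1)).symm
  have hF3 : ∀ a b c : L, F a b + F (a * b) c = F b c + F a (b * c) := by
    intro a b c
    have h1 : s a * s b * s c = s (a * b * c) * B.z ^ (F a b + F (a * b) c) := by
      rw [hF a b, mul_assoc, ← B.cz, ← mul_assoc, hF (a * b) c, mul_assoc, ← zpow_add,
        add_comm]
    have h2 : s a * (s b * s c) = s (a * (b * c)) * B.z ^ (F b c + F a (b * c)) := by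
      rw [hF b c, ← mul_assoc, hF a (b * c), mul_assoc, ← zpow_add, add_comm]
    rw [mul_assoc, h2, ← mul_assoc a b c] at h1
    exact (hzi B _ _ (mul_left_cancel h1)).symm
  -- the second extension
  obtain ⟨A, hA, -⟩ := hext (fun j a b => if j = 0 then 0 else F a b)
    (fun j a b h => by
      split_ifs
      · rfl
      · exact hF1 a b h)
    (fun j g c d => by simp only [hF2])
  obtain ⟨H, iH, e, he⟩ := twist A F hF3
    (fun a => hF1 _ _ (by rw [inv_mul_cancel, mul_inv_cancel]))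
    (fun a => hF1 _ _ (by rw [one_mul, mul_one]))
  refine ⟨A.A, H, inferInstance, iH, e,
    FreeGroup.of 0 * FreeGroup.of 1 * vv w 1 (FreeGroup.of 0) (FreeGroup.of 1) ^ p,
    vv w 0 (FreeGroup.of 0) (FreeGroup.of 1) ^ p, ?_, ?_, ?_⟩
  · intro a b
    rw [he, map_mul, map_mul, map_pow, map_vv, FreeGroup.lift_apply_of,
      FreeGroup.lift_apply_of]
    show _ = e a * e b * vv w 1 (e a) (e b) ^ p
    rw [hA, if_neg (by decide)]
  · intro f
    rw [map_pow, map_vv, hA, if_pos rfl, zpow_zero]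
  · -- the fibre product
    let P : Subgroup (A.A × B.A) := MonoidHom.eqLocus (A.φ.comp (MonoidHom.fst A.A B.A))
      (B.φ.comp (MonoidHom.snd A.A B.A))
    have hP : ∀ q : P, A.φ q.1.1 = B.φ q.1.2 := fun q => q.2
    choose κ hκ using fun b : B.A => B.lift (a := b) (b := s (B.φ b)) (by rw [hs1])
    let τ : P →* H := MonoidHom.mk' (fun q => e.symm (q.1.1 * A.z ^ κ q.1.2)) (by
      intro q q'
      apply e.injective
      rw [he, e.apply_symm_apply, e.apply_symm_apply, e.apply_symm_apply]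
      have h1 : κ (q.1.2 * q'.1.2) = κ q.1.2 + κ q'.1.2 + F (B.φ q.1.2) (B.φ q'.1.2) := by
        have h2 := hκ (q.1.2 * q'.1.2)
        have h3 : q.1.2 * q'.1.2 = s (B.φ (q.1.2 * q'.1.2)) *
            B.z ^ (κ q.1.2 + κ q'.1.2 + F (B.φ q.1.2) (B.φ q'.1.2)) := by
          conv_lhs => rw [hκ q.1.2, hκ q'.1.2]
          have e1 : s (B.φ q.1.2) * B.z ^ κ q.1.2 * (s (B.φ q'.1.2) * B.z ^ κ q'.1.2) =
              s (B.φ q.1.2) * (B.z ^ κ q.1.2 * s (B.φ q'.1.2)) * B.z ^ κ q'.1.2 := by group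
          rw [e1, ← B.cz, ← mul_assoc, hF, map_mul, mul_assoc, mul_assoc, ← zpow_add,
            ← zpow_add]
          congr 2
          ring
        exact hzi B _ _ (mul_left_cancel (h2.symm.trans h3))
      show (q.1.1 * q'.1.1) * A.z ^ κ (q.1.2 * q'.1.2) = _
      rw [h1, map_mul, map_mul, A.zz, A.zz, mul_one, mul_one, hP, hP]
      have e1 : q.1.1 * A.z ^ κ q.1.2 * (q'.1.1 * A.z ^ κ q'.1.2) =
          q.1.1 * (A.z ^ κ q.1.2 * q'.1.1) * A.z ^ κ q'.1.2 := by group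
      rw [e1, ← A.cz]
      have e2 : q.1.1 * (q'.1.1 * A.z ^ κ q.1.2) * A.z ^ κ q'.1.2 =
          q.1.1 * q'.1.1 * A.z ^ (κ q.1.2 + κ q'.1.2) := by group
      rw [e2, mul_assoc _ (A.z ^ _), ← zpow_add])
    obtain ⟨a, ha⟩ := A.sur x0
    obtain ⟨a', ha'⟩ := A.sur y0
    let q : P := ⟨(a, s x0), by
      show A.φ a = B.φ (s x0)
      rw [ha, hs1]⟩
    let q' : P := ⟨(a', s y0), by
      show A.φ a' = B.φ (s y0)
      rw [ha', hs1]⟩
    refine ⟨fun n => if n = 0 then τ q else τ q', ?_⟩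
    rw [map_pow, map_vv, FreeGroup.lift_apply_of, FreeGroup.lift_apply_of, if_pos rfl,
      if_neg one_ne_zero, ← map_vv, ← map_pow]
    intro h
    have h1 : (vv w 0 q q' ^ p : P).1 = (1, B.z ^ (p : ℤ)) := by
      have e1 : (vv w 0 q q' ^ p : P).1.1 = vv w 0 a a' ^ p := by
        have : A.A × B.A → A.A := Prod.fst
        have e2 := map_vv ((MonoidHom.fst A.A B.A).comp P.subtype) w 0 q q'
        show ((MonoidHom.fst A.A B.A).comp P.subtype) (vv w 0 q q' ^ p) = _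
        rw [map_pow, e2]
        rfl
      have e3 : (vv w 0 q q' ^ p : P).1.2 = vv w 0 (s x0) (s y0) ^ p := by
        have e2 := map_vv ((MonoidHom.snd A.A B.A).comp P.subtype) w 0 q q'
        show ((MonoidHom.snd A.A B.A).comp P.subtype) (vv w 0 q q' ^ p) = _
        rw [map_pow, e2]
        rfl
      refine Prod.ext ?_ ?_
      · rw [e1, hA, if_pos rfl, zpow_zero]
      · rw [e3, hB1, hs1, hs1, if_neg hxy, if_pos rfl]
    have h2 : κ (B.z ^ (p : ℤ)) = p := by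
      have := hκ (B.z ^ (p : ℤ))
      rw [B.zz, hs0, one_mul] at this
      exact (hzi B _ _ this).symm
    have h3 : κ 1 = 0 := by
      have := hκ 1
      rw [map_one, hs0, one_mul] at this
      exact B.inf _ this.symm
    have h4 : e (τ (vv w 0 q q' ^ p)) = A.z ^ (p : ℤ) := by
      show e (e.symm ((vv w 0 q q' ^ p : P).1.1 * A.z ^ κ (vv w 0 q q' ^ p : P).1.2)) = _
      rw [e.apply_symm_apply, h1]
      show 1 * A.z ^ κ (B.z ^ (p : ℤ)) = _
      rw [h2, one_mul]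
    have h5 : e (τ 1) = 1 := by
      show e (e.symm (1 * A.z ^ κ 1)) = _
      rw [e.apply_symm_apply, h3, zpow_zero, one_mul]
    rw [h, ← map_one τ, h5] at h4
    exact hp0 (A.inf _ h4.symm)

end Pool.Agent.Y314.HM
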