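import Pool.Agent.Y45.MON.StmS
import Pool.Agent.Y210.MON.Gr

/-!
# Central extensions of the groups of the project MON (helper314)

One step `G → G'` of the construction of helper45 lifts to central extensions by an infinite
cyclic group, for all choices of the lifts of the relators.
-/

set_option autoImplicit false

namespace Pool.Agent.Y314.HM

open Pool.Agent.TH54.BU Pool.Agent.Y45.MON

/-- a central extension of `G` by an infinite cyclic group -/
structure CE (G : Type) [Group G] : Type 1 where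
  A : Type
  grp : Group A
  φ : A →* G
  sur : Function.Surjective φ
  z : A
  cen : ∀ a, a * z = z * a
  ker : ∀ a, φ a = 1 → ∃ k : ℤ, a = z ^ k
  z1 : φ z = 1
  inf : ∀ k : ℤ, z ^ k = 1 → k = 0

instance {G : Type} [Group G] (E : CE G) : Group E.A := E.grp

/-- the extension property -/
def ExtP {G G' : Type} [Group G] [Group G'] (ex : G → ℕ) (Xs : Set G) (f : G →* G') : Prop :=
  ∀ (E : CE G) (s : G → E.A), (∀ x ∈ Xs, E.φ (s x) = x ^ ex x) →
    ∃ (E' : CE G') (g : E.A →* E'.A), (∀ a, E'.φ (g a) = f (E.φ a)) ∧ g E.z = E'.z ∧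
      Function.Surjective g ∧ ∀ x ∈ Xs, g (s x) = 1

namespace CE

variable {G : Type} [Group G] (E : CE G)

theorem cz (a : E.A) (k : ℤ) : a * E.z ^ k = E.z ^ k * a := Commute.zpow_right (E.cen a) k

theorem zz (k : ℤ) : E.φ (E.z ^ k) = 1 := by rw [map_zpow, E.z1, one_zpow]

theorem lift {a b : E.A} (h : E.φ a = E.φ b) : ∃ k : ℤ, a = b * E.z ^ k := by
  have h1 : E.φ (b⁻¹ * a) = 1 := by rw [map_mul, map_inv, h, inv_mul_cancel]
  obtain ⟨k, hk⟩ := E.ker _ h1
  exact ⟨k, by rw [← hk, mul_inv_cancel_left]⟩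

end CE

theorem extP_of {G : Type} [Group G] {H : GH G} {c θ T : ℕ} (L : LS H c θ T) (ex : G → ℕ)
    (hn : ∀ i, 40 * L.thr + 1 ≤ ex (L.x i)) (M : Subgroup G) [M.Normal]
    (hM : M = Subgroup.normalClosure (Set.range fun i => L.x i ^ ex (L.x i))) :
    ExtP ex (Set.range L.x) (QuotientGroup.mk' M) := by
  intro E s hs
  have hr : ∀ i, E.φ (s (L.x i)) = L.x i ^ ex (L.x i) := fun i => hs _ ⟨i, rfl⟩
  have hc : ∀ i a, E.φ a ∈ Subgroup.zpowers (L.x i) → a * s (L.x i) = s (L.x i) * a := by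
    rintro i a ⟨k, hk⟩
    obtain ⟨l, hl⟩ := E.sur (L.x i)
    obtain ⟨m, hm⟩ := E.lift (a := s (L.x i)) (b := l ^ ex (L.x i)) (by
      rw [hr, map_pow, hl])
    obtain ⟨j, rfl⟩ := E.lift (a := a) (b := l ^ k) (by
      rw [map_zpow, hl]
      exact hk.symm)
    have c1 : Commute (l ^ k) (s (L.x i)) := by
      rw [hm]
      refine Commute.mul_right ?_ (E.cz _ _)
      exact ((Commute.refl l).zpow_left k).pow_right _
    have c2 : Commute (E.z ^ j) (s (L.x i)) := (E.cz (s (L.x i)) j).symm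
    exact (c1.mul_left c2).eq
  set N : Subgroup E.A := Subgroup.normalClosure (Set.range fun i => s (L.x i)) with hN
  have hNn : N.Normal := Subgroup.normalClosure_normal
  have hmap : N.map E.φ = M := by
    rw [hN, Subgroup.map_normalClosure _ E.φ E.sur, hM]
    congr 1
    rw [← Set.range_comp]
    congr 1
    funext i
    exact hr i
  have hinj : ∀ a ∈ N, E.φ a = 1 → a = 1 := by
    intro a ha h1
    by_contra hne
    obtain ⟨i, u, hiu⟩ := Pool.Agent.Y210.MON.gr_ext L E.φ E.sur hn (fun i => s (L.x i)) hr hc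
      ha hne 1
    rw [h1, one_mul, L.wf_s_self] at hiu
    have := hn i
    simp only [abs_zero, zero_add] at hiu
    have h2 : ex (L.x i) ≤ 12 * L.thr := by exact_mod_cast hiu
    omega
  have hle : N ≤ M.comap E.φ := by
    rw [← hmap]
    exact Subgroup.le_comap_map _ _
  have hM' : ∀ a : E.A, E.φ a ∈ M → ∃ k : ℤ, (a : E.A ⧸ N) = (E.z : E.A ⧸ N) ^ k := by
    intro a ha
    rw [← hmap] at ha
    obtain ⟨b, hb, hb2⟩ := ha
    obtain ⟨k, hk⟩ := E.lift (a := a) (b := b) hb2.symm
    refine ⟨k, ?_⟩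
    rw [hk, QuotientGroup.mk_mul, (QuotientGroup.eq_one_iff b).2 hb, one_mul,
      QuotientGroup.mk_zpow]
  refine ⟨{ A := E.A ⧸ N
            grp := inferInstance
            φ := QuotientGroup.map N M E.φ hle
            sur := ?_
            z := (E.z : E.A ⧸ N)
            cen := ?_
            ker := ?_
            z1 := ?_
            inf := ?_ }, QuotientGroup.mk' N, ?_, rfl, QuotientGroup.mk'_surjective N, ?_⟩
  · intro q
    obtain ⟨g, rfl⟩ := QuotientGroup.mk_surjective q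
    obtain ⟨a, rfl⟩ := E.sur g
    exact ⟨(a : E.A ⧸ N), rfl⟩
  · intro q
    obtain ⟨a, rfl⟩ := QuotientGroup.mk_surjective q
    rw [← QuotientGroup.mk_mul, E.cen, QuotientGroup.mk_mul]
  · intro q hq
    obtain ⟨a, rfl⟩ := QuotientGroup.mk_surjective q
    refine hM' a ?_
    have h1 : ((E.φ a : G) : G ⧸ M) = 1 := hq
    exact (QuotientGroup.eq_one_iff _).1 h1
  · show ((E.φ E.z : G) : G ⧸ M) = 1
    rw [E.z1]
    rfl
  · intro k hk
    have h1 : ((E.z ^ k : E.A) : E.A ⧸ N) = 1 := by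
      rw [QuotientGroup.mk_zpow]
      exact hk
    exact E.inf k (hinj _ ((QuotientGroup.eq_one_iff _).1 h1) (E.zz k))
  · intro a
    rfl
  · rintro _ ⟨i, rfl⟩
    exact (QuotientGroup.eq_one_iff _).2 (Subgroup.subset_normalClosure ⟨i, rfl⟩)

end Pool.Agent.Y314.HM
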