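import Pool.Agent.Y314.HM.Base
import Pool.Agent.Y331.MON.Step5

/-!
# One step of the project MON together with the extension property (helper314)

The proof is a copy of `Pool.Agent.Y331.MON.stepJob`.
-/

set_option autoImplicit false

namespace Pool.Agent.Y314.HM

open Pool.Agent.TH54.BU
open Pool.Agent.Y45.MON
open Pool.Agent.Y331.MON

/-- the kernel of one step -/
def KerP {G G' : Type} [Group G] [Group G'] (ex : G → ℕ) (Xs : Set G) (f : G →* G') : Prop :=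
  f.ker = Subgroup.normalClosure ((fun x => x ^ ex x) '' Xs)

/-- one step -/
def StepStmtE : Prop := ∀ (r : ℕ) (δ : Fin r → ℕ), (∀ j, δ j = 1 ∨ δ j = 2) →
  ∃ (w : WP r) (R0 K B T n0 : ℕ), w.δ = δ ∧ 1 ≤ R0 ∧ 500 ≤ K ∧ 8 * K + 20 ≤ B ∧ 1 ≤ T ∧
    w.M1 < n0 ∧ 3 ≤ n0 ∧
    ∀ N : ℕ, (∀ q : ℕ, q.Prime → q ∣ N → n0 ≤ q) → ∀ (G : Type) [Group G] (H : GH G),
      H.D = 4 → H.Stab T → H.Acy K B → Tor G N →
      (∀ g : G, IsOfFinOrder g → ∃ u : G, Sp H (u * g * u⁻¹)) →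
      ∀ ex : G → ℕ, (∀ g, ex g ∣ N ∧ ex g ≠ 1) → (∀ g u, ex (u * g * u⁻¹) = ex g) →
      (∀ g, ex g⁻¹ = ex g) →
      ∃ (G' : Type) (_ : Group G') (H' : GH G') (f : G →* G') (Xs : Set G),
        H'.D = 4 ∧ H'.Stab T ∧ H'.Acy K B ∧ Tor G' N ∧ StepX w R0 ex Xs H H' f ∧
        ExtP ex Xs f ∧ KerP ex Xs f

attribute [local irreducible] tb

theorem stepJobE : WrStmt → XaStmt → PbStmt → GrStmt → QuoStmt → StabTorStmt → MixStmt →
    OrdStmt → ConjNStmt → ConjOStmt → ConjTStmt → StepStmtE := by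
  intro hWr hXa hPb hGr hQuo hSt hMix hOrd hCN hCO hCT r δ hδ
  obtain ⟨De, hDe⟩ := exists_cone 4 3250
  obtain ⟨QD, hQD⟩ : ∃ x, x = 2 * De + 2 := ⟨_, rfl⟩
  obtain ⟨Nb, hNb⟩ : ∃ x, x = (2 * (101 * QD + 100) + 3) ^ 2 := ⟨_, rfl⟩
  obtain ⟨B, hB⟩ : ∃ x, x = 8 * (Nb + 3) * 500 + 2 := ⟨_, rfl⟩
  obtain ⟨θ, hθ⟩ : ∃ x, x = B + 200 * (220 + 3250 + 4 + 1) := ⟨_, rfl⟩
  obtain ⟨Θ, hΘ⟩ := hDe θ
  obtain ⟨Cm, hCm⟩ := hMix 4 3250 θ Θ De B
  obtain ⟨Te, hTe⟩ : ∃ x, x = 2 * (θ + 2 * Θ + 100 * (4 + 3250 + 1) + 2) := ⟨_, rfl⟩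
  obtain ⟨R0, hR0⟩ : ∃ x, x = 100 * (2 * B + θ + 400 * (4 + 3250 + 1)) + 2 := ⟨_, rfl⟩
  obtain ⟨κ, hκ1, hκ2, hκ3, hκ4⟩ := kappa_all Cm QD R0 Te
  obtain ⟨T, hT⟩ : ∃ x, x = κ * Te := ⟨_, rfl⟩
  rw [← hT] at hκ2 hκ3 hκ4
  have hκ : 2 ≤ κ := by omega
  have hκR : R0 ≤ κ := by omega
  have hT1 : 1 ≤ T := by
    rw [hT]
    exact Nat.mul_pos (by omega) (by omega)
  obtain ⟨n0', hn0⟩ := hCm T
  obtain ⟨th, hth⟩ : ∃ x, x = T * (2 * 3250 + θ + 1) := ⟨_, rfl⟩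
  obtain ⟨ρ, hρ⟩ : ∃ x, x = R0 + 2 * tb 4 3250 T (2 * R0 + 2) + 5 := ⟨_, rfl⟩
  obtain ⟨M1, hM1⟩ : ∃ x, x = 1000 * (T * (3250 + θ + 0 + 0 + 1) + 1) := ⟨_, rfl⟩
  obtain ⟨cc, hcc⟩ : ∃ x, x = 1000 * (T * (3250 + θ + Θ + ρ + 1) + 1) := ⟨_, rfl⟩
  obtain ⟨F, hF⟩ := mu_bound r T (cc + 1)
  obtain ⟨ct, hct⟩ : ∃ x, x = 10 ^ 7 * ((T + 1) * (3250 + θ + 4 + 1)) ^ 2 := ⟨_, rfl⟩
  obtain ⟨n0, hn0e⟩ : ∃ x, x = n0' + (40 * th + 1) + (24 * th + T * (2 * 3250 + 1) +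
    4 * (T * Θ + 1)) + (4 * T * (1000 * (4 + 3250 + θ + 1)) + 4 * T * Θ + 48 * th + 4) +
    T * (20 + 3250) + 3 + (T * (2 * R0 + 2 + θ + 100 * (4 + 3250 + 1)) + T * Θ +
      T * (2 * 3250 + 1) + 24 * th + 1) + (2 * T * Θ + 24 * th + 10 * T * (2 * 3250 + 1) +
      4 * T * (100 * (2 * B + θ + 400 * (4 + 3250 + 1))) + 4) + 100 * (F + cc) + 4 * ct +
      2 * (M1 * M1) + (M1 + 1) + 100 * ((T * (2 * R0 + 2) + 1) * (cc + 1) + cc) := ⟨_, rfl⟩
  refine ⟨{ M1 := M1, m2 := cc + 1, δ := δ, e := fun j l => (cc + 1) * mu j l }, R0, 500, B, T,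
    n0, rfl, ?_, le_rfl, ?_, hT1, ?_, ?_, ?_⟩
  · omega
  · omega
  · show M1 < n0
    omega
  · omega
  intro N hN G _ H hD hS hA htor hts ex hex hexc hexi
  have hN0 : N ≠ 0 := by
    rintro rfl
    have := hN 2 Nat.prime_two (dvd_zero 2)
    omega
  have hodd : Odd N := by
    rw [← Nat.not_even_iff_odd]
    intro h
    have := hN 2 Nat.prime_two h.two_dvd
    omega
  have hK : 100 * H.D + 100 ≤ 500 := by rw [hD]
  obtain ⟨L, hprim, hxlen, hshort⟩ := exists_LS' H hK hS hA hodd htor 220 3250 θ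
    (by rw [hD]) (by rw [hD, hθ])
  have hthr : L.thr = th := hth.symm
  have hcst0 : cst L 0 0 = M1 := hM1.symm
  have hcst : cst L Θ ρ = cc := hcc.symm
  have hcstT : cstT L = ct := by
    unfold cstT
    rw [hD, hct]
  set n : L.ι → ℕ := fun i => ex (L.x i) with hn
  have hnN : ∀ i, n i ∣ N := fun i => (hex _).1
  have hnl : ∀ i, n0 ≤ n i := fun i => large_of_dvd hN0 hN (hnN i) (hex _).2
  have hnodd : ∀ i, Odd (n i) := fun i => Odd.of_dvd_nat hodd (hnN i)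
  set M := Subgroup.normalClosure (Set.range fun i => L.x i ^ n i) with hM
  have hMn : M.Normal := Subgroup.normalClosure_normal
  have Fv0 : Fv L n M := hGr G H 3250 θ T L n fun i => by
    rw [hthr]
    have := hnl i
    omega
  have hxM : ∀ i, L.x i ^ n i ∈ M := fun i => Subgroup.subset_normalClosure ⟨i, rfl⟩
  obtain ⟨E, hED, hcone⟩ := hΘ G H T L (by rw [hD])
  obtain ⟨Q, hQD', hQ1, hQ2⟩ := hQuo G H 3250 θ T L n M Fv0 E Θ hcone hT1 fun i => by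
    rw [hthr]
    have := hnl i
    omega
  have hQDQ : Q.D = QD := by rw [hQD', hED, hQD]
  have S : Sv L 500 B N 220 Θ n E M Q :=
    { hK := hK, stab := hS, hT := hT1, acy := hA, odd := hodd, tor := htor, prim := hprim
      xlen := hxlen, hL1 := by omega, short := hshort, fil := Fv0, cone := hcone
      le := hQ1, lift := hQ2, hQD := hQD' }
  have c4 : ∀ i, 4 * cstT L ≤ n i := fun i => by
    rw [hcstT]
    have := hnl i
    omega
  have c5 : ∀ i, 100 * (F + cst L Θ ρ) ≤ n i := fun i => by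
    rw [hcst]
    have := hnl i
    omega
  obtain ⟨hQS, hQT⟩ := hSt G H 3250 θ T L 500 B N 220 Θ n E M Q S fun i => by
    rw [hthr, hD]
    have := hnl i
    omega
  have hxi : ∀ (i : L.ι) (k : ℤ), L.x i ^ ((n i : ℤ) * k) ∈ M := fun i k => by
    rw [zpow_mul, zpow_natCast]
    exact M.zpow_mem (hxM i) k
  have hxN : ∀ (i : L.ι) (k : ℤ), (L.x i ^ k) ^ N ∈ M := fun i k => by
    obtain ⟨t, ht⟩ := hnN i
    have h1 : (L.x i ^ k) ^ N = L.x i ^ ((n i : ℤ) * (t * k)) := by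
      rw [← zpow_natCast, ← zpow_mul, ht]
      congr 1
      push_cast
      ring
    rw [h1]
    exact hxi i _
  have htorQ : Tor (G ⧸ M) N := by
    intro q hq
    obtain ⟨g, rfl, hg⟩ := hQT q hq
    rcases hg with hg | ⟨i, u, k, rfl⟩
    · rw [← QuotientGroup.mk_pow, htor g hg, QuotientGroup.mk_one]
    · rw [← QuotientGroup.mk_pow, QuotientGroup.eq_one_iff, conj_pow]
      exact hMn.conj_mem _ (hxN i k) u
  have hordQ : ∀ g : G ⧸ M, IsOfFinOrder g → g ≠ 1 → n0' ≤ orderOf g := by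
    intro g hg hg1
    have h1 : orderOf g ∣ N := orderOf_dvd_of_pow_eq_one (htorQ g hg)
    have h2 : orderOf g ≠ 1 := fun h => hg1 (orderOf_eq_one_iff.1 h)
    have := large_of_dvd hN0 hN h1 h2
    omega
  have hmix := hn0 G H L 500 N 220 n E M Q (by rw [hD]) (by rw [hED]) (fun i => by
    have := hnl i
    omega) hordQ S
  rw [hQDQ, ← hNb] at hmix
  have hacyQ := Q.mixA (by rw [hQDQ]) hQS hmix (κ * 500)
  obtain ⟨F', hF'D, hF'⟩ := rescale Q (κ := κ) (by omega) (by rw [hQDQ]; omega)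
  have hceil : ∀ q, Q.len q ≤ κ * F'.len q := by
    intro q
    rw [hF']
    have := Nat.div_add_mod (Q.len q + κ - 1) κ
    have h2 := Nat.mod_lt (Q.len q + κ - 1) (show 0 < κ by omega)
    omega
  have hlen1 : ∀ g : G, E.len g ≤ κ → F'.len (g : G ⧸ M) ≤ 1 := by
    intro g hg
    rw [hF']
    have h1 := hQ1 g
    rw [← Nat.lt_succ_iff, Nat.div_lt_iff_lt_mul (by omega)]
    show Q.len (g : G ⧸ M) + κ - 1 < 2 * κ
    omega
  have hlen : ∀ g : G, F'.len (g : G ⧸ M) ≤ (H.len g + 1) / 2 := by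
    intro g
    rw [hF']
    have h1 := hQ1 g
    have h2 := hcone.le g
    have h3 : Q.len (g : G ⧸ M) ≤ H.len g := h1.trans h2
    rw [← Nat.lt_succ_iff, Nat.div_lt_iff_lt_mul (by omega)]
    have h4 : ((H.len g + 1) / 2 + 1) * 2 ≤ ((H.len g + 1) / 2).succ * κ :=
      Nat.mul_le_mul_left _ hκ
    have h5 : ((H.len g + 1) / 2).succ * κ = (H.len g + 1) / 2 * κ + κ := Nat.succ_mul _ _
    have h6 : (H.len g + 1) / 2 * 2 ≤ (H.len g + 1) / 2 * κ := Nat.mul_le_mul_left _ hκ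
    omega
  have hsmall : ∀ g ∈ M, H.len g ≤ 20 → g = 1 := by
    intro g hgM hg
    by_contra hne
    obtain ⟨i, u, hiu⟩ := Fv0.gr g hgM hne 1
    have h1 := L.s_le i u 1 (g * 1)
    rw [mul_one] at h1 hiu
    rw [H.d_one] at h1
    have h2 : T * (H.len g + 3250) ≤ T * (20 + 3250) := Nat.mul_le_mul_left _ (by omega)
    rw [hthr] at hiu
    have h3 : (n i : ℤ) ≤ ((T * (20 + 3250) : ℕ) : ℤ) + 12 * th := by
      have : ((T * (H.len g + 3250) : ℕ) : ℤ) ≤ ((T * (20 + 3250) : ℕ) : ℤ) := by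
        exact_mod_cast h2
      omega
    have h4 : n i ≤ T * (20 + 3250) + 12 * th := by exact_mod_cast h3
    have h5 := hnl i
    omega
  have hEx : ∀ (i : L.ι) (k : ℤ), E.len (L.x i ^ k) ≤ 1 := fun i k =>
    (hcone.le_one _).2 (Or.inr ⟨i, k, rfl⟩)
  have hmk : ∀ g : G, (QuotientGroup.mk' M) g = (g : G ⧸ M) := fun _ => rfl
  have hxe : ∀ (i : L.ι) (k : ℤ), ((L.x i ^ k : G) : G ⧸ M) = 1 ↔ (n i : ℤ) ∣ k := by
    intro i k
    rw [QuotientGroup.eq_one_iff]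
    constructor
    · exact fun h => hOrd G H 3250 θ T L n M Fv0 c4 i k h
    · rintro ⟨t, rfl⟩
      exact hxi i t
  have hExt : ExtP ex (Set.range L.x) (QuotientGroup.mk' M) := extP_of L ex (fun i => by
    have h1 := hnl i
    have h2 : n i = ex (L.x i) := rfl
    rw [hthr]
    omega) M hM
  have hKer : KerP ex (Set.range L.x) (QuotientGroup.mk' M) := by
    show (QuotientGroup.mk' M).ker = _
    rw [QuotientGroup.ker_mk', hM, ← Set.range_comp]
    rfl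
  refine ⟨G ⧸ M, inferInstance, F', QuotientGroup.mk' M, Set.range L.x, hF'D, ?_, ?_, htorQ, ?_,
    hExt, hKer⟩
  · intro q hq m
    have h1 := hQS q hq m
    have h2 : 2 * (θ + 2 * Θ + 100 * (H.D + 3250 + 1) + 2) = Te := by rw [hD, hTe]
    rw [h2] at h1
    calc m ≤ Te * Q.len (q ^ m) := h1
      _ ≤ Te * (κ * F'.len (q ^ m)) := Nat.mul_le_mul_left _ (hceil _)
      _ = T * F'.len (q ^ m) := by rw [hT]; ring
  · intro q hq g hg
    have hq1 : κ * (B - 1) + 1 ≤ Q.len q := by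
      rw [hF'] at hq
      by_contra hcon
      push Not at hcon
      have h1 : (Q.len q + κ - 1) / κ ≤ B - 1 := by
        rw [← Nat.lt_succ_iff, Nat.div_lt_iff_lt_mul (by omega)]
        have : κ * (B - 1) = (B - 1) * κ := Nat.mul_comm _ _
        rw [Nat.succ_mul]
        omega
      omega
    have hB1 : B - 1 = 8 * (Nb + 3) * 500 + 1 := by omega
    have e1 : κ * (B - 1) = 8 * (Nb + 3) * (κ * 500) + κ := by rw [hB1]; ring
    have hsd : ∀ g, g ∈ F'.SD 500 q → g ∈ Q.SD (κ * 500) q := by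
      rintro g ⟨g1, g2⟩
      exact ⟨(hceil g).trans (Nat.mul_le_mul_left _ g1),
        (hceil _).trans (Nat.mul_le_mul_left _ g2)⟩
    obtain ⟨a1, a2⟩ := hacyQ q (by rw [hQDQ]; omega) g (hsd g hg)
    exact ⟨a1, fun h hh => a2 h (hsd h hh)⟩
  refine
    { surj := QuotientGroup.mk'_surjective M
      len := hlen
      len0 := ?_
      small := ?_
      kill := ?_
      prim := ?_
      ts := ?_
      short := ?_
      tor := ?_
      ord := ?_
      cnn := ?_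
      cno := ?_
      ctt := ?_
      pb := ?_
      xa := ?_
      wr := ?_ }
  · intro g hg
    exact hlen1 g ((hcone.le g).trans (hg.trans hκR))
  · intro g hg hg1
    exact hsmall g ((QuotientGroup.eq_one_iff g).1 hg1) hg
  · intro g hg
    by_cases hgt : IsOfFinOrder g
    · exact (QuotientGroup.mk' M).isOfFinOrder hgt
    · obtain ⟨i, u, k, hk⟩ := hshort g hgt (by rw [hD]; omega)
      rw [isOfFinOrder_iff_pow_eq_one]
      refine ⟨N, Nat.pos_of_ne_zero hN0, ?_⟩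
      rw [hmk, ← QuotientGroup.mk_pow, QuotientGroup.eq_one_iff, hk, conj_pow]
      exact hMn.conj_mem _ (hxN i k) u
  · rintro _ ⟨i, rfl⟩
    exact hprim i
  · intro q hq
    obtain ⟨g, rfl, hg⟩ := hQT q hq
    rcases hg with hg | ⟨i, u, k, rfl⟩
    · obtain ⟨u, hu⟩ := hts g hg
      refine ⟨(u : G ⧸ M), fun k => ?_⟩
      have h1 : ((u : G ⧸ M) * (g : G ⧸ M) * (u : G ⧸ M)⁻¹) ^ k =
          (((u * g * u⁻¹) ^ k : G) : G ⧸ M) := rfl
      rw [h1]
      have h2 := hlen ((u * g * u⁻¹) ^ k)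
      have h3 := hu k
      omega
    · refine ⟨((u⁻¹ : G) : G ⧸ M), fun m => ?_⟩
      have h1 : (((u⁻¹ : G) : G ⧸ M) * ((u * L.x i ^ k * u⁻¹ : G) : G ⧸ M) *
          ((u⁻¹ : G) : G ⧸ M)⁻¹) ^ m = ((L.x i ^ (k * m) : G) : G ⧸ M) := by
        have h2 : (u⁻¹ * (u * L.x i ^ k * u⁻¹) * (u⁻¹)⁻¹) ^ m = L.x i ^ (k * m) := by
          rw [zpow_mul]
          congr 1
          group
        rw [← h2]
        rfl
      rw [h1]
      exact hlen1 _ ((hEx i _).trans (by omega))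
  · intro g hg hg1
    obtain ⟨i, u, k, hk⟩ := hshort g hg (by rw [hD]; omega)
    exact ⟨L.x i, ⟨i, rfl⟩, u, k, hk⟩
  · intro q hq
    obtain ⟨g, hgq, hg⟩ := hQT q hq
    rcases hg with hg | ⟨i, u, k, hk⟩
    · exact Or.inl ⟨g, hgq, hg⟩
    · exact Or.inr ⟨L.x i, ⟨i, rfl⟩, u, k, by rw [← hk]; exact hgq⟩
  · rintro _ ⟨i, rfl⟩ k
    exact hxe i k
  · rintro _ ⟨i, rfl⟩ _ ⟨j, rfl⟩ u k l hk1 he
    have h1 : ¬ (n i : ℤ) ∣ k := fun h => hk1 ((hxe i k).2 h)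
    have h2 : u * L.x j ^ l * u⁻¹ * (L.x i ^ k)⁻¹ ∈ M := by
      rw [← QuotientGroup.eq_one_iff, QuotientGroup.mk_mul, QuotientGroup.mk_inv]
      exact mul_inv_eq_one.2 he
    obtain ⟨h3, ⟨s, hs⟩, h4⟩ := hCN G H 3250 θ T L n M Fv0 c4 i j k l u h1 h2
    subst h3
    refine ⟨rfl, ⟨-s, ?_⟩, ?_⟩
    · have h5 : ((L.x i ^ s * u : G) : G ⧸ M) = 1 := (QuotientGroup.eq_one_iff _).2 hs
      rw [QuotientGroup.mk_mul] at h5
      rw [hmk, hmk, zpow_neg, QuotientGroup.mk_inv]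
      exact (eq_inv_of_mul_eq_one_right h5)
    · have h5 := (hxe i (k - l)).2 h4
      rw [zpow_sub, QuotientGroup.mk_mul, QuotientGroup.mk_inv] at h5
      exact (mul_inv_eq_one.1 h5).symm
  · rintro _ ⟨i, rfl⟩ g u k hg he
    by_cases hg1 : g = 1
    · rw [hg1, map_one, hmk, QuotientGroup.eq_one_iff] at he
      rw [hmk, QuotientGroup.eq_one_iff]
      have := hMn.conj_mem _ he u⁻¹
      rwa [show u⁻¹ * (u * L.x i ^ k * u⁻¹) * u⁻¹⁻¹ = L.x i ^ k by group] at this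
    · exfalso
      obtain ⟨v, hv⟩ := hts g hg
      have h1 : IsOfFinOrder (v * g * v⁻¹) := by
        have := (MulAut.conj v).toMonoidHom.isOfFinOrder hg
        simpa using this
      have h2 : v * g * v⁻¹ ≠ 1 := by
        intro h
        apply hg1
        have : g = v⁻¹ * (v * g * v⁻¹) * v := by group
        rw [this, h]
        group
      have h3 : H.len (v * g * v⁻¹) ≤ 1 := by
        have := hv 1
        rwa [zpow_one] at this
      refine hCO G H 3250 θ T L n M Fv0 c4 i k (v * g * v⁻¹) (v * u) h1 h2 h3 ?_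
      have h4 : v * u * L.x i ^ k * (v * u)⁻¹ * (v * g * v⁻¹)⁻¹ =
          v * ((u * L.x i ^ k * u⁻¹) * g⁻¹) * v⁻¹ := by group
      rw [h4]
      apply hMn.conj_mem
      rw [← QuotientGroup.eq_one_iff, QuotientGroup.mk_mul, QuotientGroup.mk_inv]
      exact mul_inv_eq_one.2 he
  · intro g g' u hg hg' hg1 he
    obtain ⟨v, hv⟩ := hts g hg
    obtain ⟨v', hv'⟩ := hts g' hg'
    have h1 : IsOfFinOrder (v' * g' * v'⁻¹) := by
      have := (MulAut.conj v').toMonoidHom.isOfFinOrder hg'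
      simpa using this
    have h2 : v' * g' * v'⁻¹ ≠ 1 := by
      intro h
      apply hg1
      have : g' = v'⁻¹ * (v' * g' * v'⁻¹) * v' := by group
      rw [this, h]
      group
    have h3 : H.len (v * g * v⁻¹) ≤ 1 := by
      have := hv 1
      rwa [zpow_one] at this
    have h3' : H.len (v' * g' * v'⁻¹) ≤ 1 := by
      have := hv' 1
      rwa [zpow_one] at this
    have h4 : (v' * u * v⁻¹) * (v * g * v⁻¹) * (v' * u * v⁻¹)⁻¹ * (v' * g' * v'⁻¹)⁻¹ ∈ M := by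
      have h5 : (v' * u * v⁻¹) * (v * g * v⁻¹) * (v' * u * v⁻¹)⁻¹ * (v' * g' * v'⁻¹)⁻¹ =
          v' * ((u * g * u⁻¹) * g'⁻¹) * v'⁻¹ := by group
      rw [h5]
      apply hMn.conj_mem
      rw [← QuotientGroup.eq_one_iff, QuotientGroup.mk_mul, QuotientGroup.mk_inv]
      exact mul_inv_eq_one.2 he
    obtain ⟨m, hm, hm2⟩ := hCT G H 3250 θ T L n M Fv0 c4 (v * g * v⁻¹) (v' * g' * v'⁻¹)
      (v' * u * v⁻¹) h1 h2 h3 h3' h4
    refine ⟨v'⁻¹ * m * v' * u, ?_, ?_⟩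
    · have h5 : v'⁻¹ * m * v' ∈ M := by
        have := hMn.conj_mem m hm v'⁻¹
        rwa [inv_inv] at this
      have h6 : ((v'⁻¹ * m * v' : G) : G ⧸ M) = 1 := (QuotientGroup.eq_one_iff _).2 h5
      rw [hmk, hmk, QuotientGroup.mk_mul, h6, one_mul]
    · have h5 : v'⁻¹ * m * v' * u * g * (v'⁻¹ * m * v' * u)⁻¹ =
          v'⁻¹ * (m * (v' * u * v⁻¹) * (v * g * v⁻¹) * (m * (v' * u * v⁻¹))⁻¹) * v' := by group
      rw [h5, hm2]
      group
  · intro a b ha hab hP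
    exact hPb G H 3250 θ T L 500 B N 220 Θ n E M Q S M1 R0 hts hQT hnodd (by rw [hcst0])
      (fun i => coprime_of_dvd hN (hnN i) (by omega) (by omega))
      (coprime_of_dvd hN dvd_rfl (by omega) (by omega))
      (fun i => by
        rw [hcst0]
        have := hnl i
        omega) c4
      (fun i => by
        rw [hthr, hD]
        have := hnl i
        omega) (by rw [hD, hR0]) a b ha hab hP
  · intro a1 b1 ha hs hb hP hPf
    obtain ⟨h1, h2, h3⟩ := hXa G H 3250 θ T L 500 B N 220 Θ n E M Q S R0 ρ M1 (cc + 1) (by omega)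
      (by rw [hD, hρ]; omega) (by rw [hcst]; omega) (fun i => by
        rw [hcst]
        have := hnl i
        omega) (fun i => by
        rw [hthr, hD]
        have := hnl i
        omega) a1 b1 ha hs hb hP hPf
    refine ⟨h1, ?_, h3⟩
    rw [hD] at h2
    exact hlen1 _ (h2.trans hκ4)
  · intro a b X hG j
    have hmono : tb 4 3250 T 1 ≤ tb 4 3250 T (2 * R0 + 2) := tb_mono T (by omega)
    obtain ⟨h1, h2, h3, h4, h5⟩ := hWr G H 3250 θ T L n M Fv0 E Θ hcone hT1 hprim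
      (fun z hz hz1 => hshort z hz (by rw [hD]; omega)) hsmall r
      { M1 := M1, m2 := cc + 1, δ := δ, e := fun j l => (cc + 1) * mu j l } mu ρ (cc + 1) F
      hδ mu_prime mu_per mu_inj (fun _ _ => rfl) (by rw [hD, hρ]; omega) (by rw [hcst]; omega)
      hF c5 a b X hG j
    refine ⟨h1, ?_, h3, h4, h5⟩
    rw [hD] at h2
    exact hlen1 _ (h2.trans hκ3)

end Pool.Agent.Y314.HM
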