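import Pool.Agent.Y314.HM.Base

/-!
# The tower of central extensions (helper314)
-/

set_option autoImplicit false

namespace Pool.Agent.Y314.HM

open Pool.Agent.TH54.BU Pool.Agent.Y45.MON

section words

variable {A : Type} [Group A] {r : ℕ}

theorem map_vv {B : Type} [Group B] (φ : A →* B) (w : WP r) (j : Fin r) (a b : A) :
    φ (vv w j a b) = vv w j (φ a) (φ b) := by
  simp [vv, Wj, X1, P0]

theorem conj_vv (u : A) (w : WP r) (j : Fin r) (a b : A) :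
    vv w j (u * a * u⁻¹) (u * b * u⁻¹) = u * vv w j a b * u⁻¹ := by
  have := map_vv (MulAut.conj u).toMonoidHom w j a b
  simpa using this.symm

theorem P0_cen (M : ℕ) (a b c d : A) (hc : ∀ y : A, c * y = y * c) (hd : ∀ y : A, d * y = y * d) :
    P0 M (a * c) (b * d) = P0 M a b * c ^ (M + 1) := by
  unfold P0
  have h1 : (a * c) ^ M = a ^ M * c ^ M := (show Commute a c from (hc a).symm).mul_pow M
  have hcM : ∀ y : A, c ^ M * y = y * c ^ M := fun y =>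
    ((show Commute c y from hc y).pow_left M).eq
  rw [h1]
  have e1 : a * c * (b * d) * (a ^ M * c ^ M) * (b * d)⁻¹ =
      a * c * (b * (d * a ^ M) * c ^ M) * (b * d)⁻¹ := by group
  have e2 : a * c * (b * (d * a ^ M) * c ^ M) * (b * d)⁻¹ =
      a * (c * (b * a ^ M)) * (d * (c ^ M * (b * d)⁻¹)) := by
    rw [hd (a ^ M)]
    group
  have e3 : d * (c ^ M * (b * d)⁻¹) = (c ^ M * (b * d)⁻¹) * d := hd _
  rw [e1, e2, e3, hc (b * a ^ M), mul_inv_rev, hcM]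
  have e4 : a * (b * a ^ M * c) * (d⁻¹ * b⁻¹ * c ^ M * d) =
      a * b * a ^ M * (c * (d⁻¹ * b⁻¹)) * (c ^ M * d) := by group
  rw [e4, hc (d⁻¹ * b⁻¹), hcM]
  have e5 : a * b * a ^ M * (d⁻¹ * b⁻¹ * c) * (d * c ^ M) =
      a * b * a ^ M * d⁻¹ * b⁻¹ * (c * d) * c ^ M := by group
  rw [e5, hc d]
  have e6 : a * b * a ^ M * d⁻¹ * b⁻¹ * (d * c) * c ^ M =
      a * b * a ^ M * (d⁻¹ * (b⁻¹ * d)) * (c * c ^ M) := by group
  rw [e6, ← hd b⁻¹, ← pow_succ']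
  group

theorem X1_cen (M m : ℕ) (a b c d : A) (hc : ∀ y : A, c * y = y * c)
    (hd : ∀ y : A, d * y = y * d) : X1 M m (a * c) (b * d) = X1 M m a b := by
  unfold X1
  rw [P0_cen M a b c d hc hd]
  have hcM : ∀ y : A, c ^ (M + 1) * y = y * c ^ (M + 1) := fun y =>
    ((show Commute c y from hc y).pow_left (M + 1)).eq
  rw [(show Commute (P0 M a b) (c ^ (M + 1)) from (hcM _).symm).mul_pow m]
  generalize P0 M a b ^ m = P
  have hcm : ∀ y : A, (c ^ (M + 1)) ^ m * y = y * (c ^ (M + 1)) ^ m := fun y =>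
    ((show Commute (c ^ (M + 1)) y from hcM y).pow_left m).eq
  generalize (c ^ (M + 1)) ^ m = C at hcm
  have e1 : a * c * (P * C) * (a * c)⁻¹ * (P * C)⁻¹ =
      a * (c * (P * C * c⁻¹)) * a⁻¹ * C⁻¹ * P⁻¹ := by group
  rw [e1, hc, show P * C * c⁻¹ * c = P * C by group]
  have e2 : a * (P * C) * a⁻¹ * C⁻¹ * P⁻¹ = a * P * (C * a⁻¹) * C⁻¹ * P⁻¹ := by group
  rw [e2, hcm]
  group

theorem Wj_cen (w : WP r) (j : Fin r) (hδ : w.δ j = 1) (a b c d X : A)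
    (hc : ∀ y : A, c * y = y * c) (hd : ∀ y : A, d * y = y * d) :
    Wj w j (a * c) (b * d) X = Wj w j a b X := by
  unfold Wj
  rw [hδ, pow_one, pow_one]
  generalize X ^ w.e j 0 = X0
  generalize X ^ w.e j 1 = X1
  generalize X ^ w.e j 2 = X2
  generalize X ^ w.e j 3 = X3
  have e1 : a * c * X0 * (b * d) * X1 * (a * c)⁻¹ * X2 * (b * d)⁻¹ * X3 =
      a * (c * (X0 * (b * d) * X1 * c⁻¹)) * a⁻¹ * X2 * (b * d)⁻¹ * X3 := by group
  rw [e1, hc]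
  have e2 : a * (X0 * (b * d) * X1 * c⁻¹ * c) * a⁻¹ * X2 * (b * d)⁻¹ * X3 =
      a * X0 * b * (d * (X1 * a⁻¹ * X2 * d⁻¹)) * b⁻¹ * X3 := by group
  rw [e2, hd]
  group

theorem vv_cen (w : WP r) (j : Fin r) (hδ : w.δ j = 1) (a b c d : A)
    (hc : ∀ y : A, c * y = y * c) (hd : ∀ y : A, d * y = y * d) :
    vv w j (a * c) (b * d) = vv w j a b := by
  unfold vv
  rw [X1_cen _ _ _ _ _ _ hc hd, Wj_cen w j hδ _ _ _ _ _ hc hd]

theorem vv_comm (w : WP r) (j : Fin r) (hδ : w.δ j = 1) (a b : A) (h : a * b = b * a) :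
    vv w j a b = 1 := by
  have h1 : P0 w.M1 a b = a ^ (w.M1 + 1) := by
    unfold P0
    have e1 : a * b * a ^ w.M1 * b⁻¹ = a * (b * a ^ w.M1) * b⁻¹ := by group
    have e2 : b * a ^ w.M1 = a ^ w.M1 * b := ((show Commute b a from h.symm).pow_right _).eq
    rw [e1, e2, pow_succ']
    group
  have h2 : X1 w.M1 w.m2 a b = 1 := by
    unfold X1
    rw [h1, ← pow_mul]
    have e2 : a * a ^ ((w.M1 + 1) * w.m2) = a ^ ((w.M1 + 1) * w.m2) * a :=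
      (Commute.self_pow a _).eq
    rw [e2]
    group
  unfold vv
  rw [h2]
  unfold Wj
  rw [hδ]
  simp only [pow_one, one_pow, mul_one]
  rw [h]
  group

end words

section step

variable {r : ℕ} (w : WP r) (j : Fin r) (hδ : w.δ j = 1) {Γ : Type} [CommGroup Γ]

/-- the special relators -/
def SR {G : Type} [Group G] (γ : G →* Γ) (F : Γ → Γ → ℤ) (p : ℕ) (GP : G → G → Prop)
    (E : CE G) (x : G) (s : E.A) : Prop :=
  ∃ a b u : E.A, GP (E.φ a) (E.φ b) ∧ x = E.φ (u * vv w j a b * u⁻¹) ∧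
    s = u * (vv w j a b ^ p * E.z ^ (-(F (γ (E.φ a)) (γ (E.φ b))))) * u⁻¹

include hδ in
theorem SR_uniq {G : Type} [Group G] {γ : G →* Γ} {F : Γ → Γ → ℤ} {p : ℕ}
    {GP : G → G → Prop} {E : CE G}
    (h1 : ∀ a b a' b' q : G, GP a b → GP a' b' → q * vv w j a b * q⁻¹ = vv w j a' b' →
      ∃ g, a' = g * a * g⁻¹ ∧ b' = g * b * g⁻¹)
    (h2 : ∀ a b q : G, GP a b → q * vv w j a b = vv w j a b * q → ∃ t : ℤ, q = vv w j a b ^ t)
    {x : G} {s s' : E.A} (hs : SR w j γ F p GP E x s) (hs' : SR w j γ F p GP E x s') :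
    s = s' := by
  obtain ⟨a, b, u, k1, k2, k3⟩ := hs
  obtain ⟨a', b', u', k1', k2', k3'⟩ := hs'
  have e1 : (E.φ u'⁻¹ * E.φ u) * vv w j (E.φ a) (E.φ b) * (E.φ u'⁻¹ * E.φ u)⁻¹ =
      vv w j (E.φ a') (E.φ b') := by
    have := k2.symm.trans k2'
    simp only [map_mul, map_inv, map_vv] at this
    have e2 : E.φ u'⁻¹ * E.φ u * vv w j (E.φ a) (E.φ b) * (E.φ u'⁻¹ * E.φ u)⁻¹ =
        (E.φ u')⁻¹ * (E.φ u * vv w j (E.φ a) (E.φ b) * (E.φ u)⁻¹) * E.φ u' := by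
      rw [map_inv]
      group
    rw [e2, this]
    group
  obtain ⟨g0, g1, g2⟩ := h1 _ _ _ _ _ k1 k1' e1
  obtain ⟨g, rfl⟩ := E.sur g0
  obtain ⟨k, hk⟩ := E.lift (a := a') (b := g * a * g⁻¹) (by rw [g1]; simp)
  obtain ⟨l, hl⟩ := E.lift (a := b') (b := g * b * g⁻¹) (by rw [g2]; simp)
  have e3 : vv w j a' b' = g * vv w j a b * g⁻¹ := by
    rw [hk, hl, vv_cen w j hδ _ _ _ _ (fun y => (E.cz y k).symm) (fun y => (E.cz y l).symm),
      conj_vv]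
  -- the element which centralizes
  have e4 : (E.φ g)⁻¹ * (E.φ u'⁻¹ * E.φ u) * vv w j (E.φ a) (E.φ b) =
      vv w j (E.φ a) (E.φ b) * ((E.φ g)⁻¹ * (E.φ u'⁻¹ * E.φ u)) := by
    have e5 : vv w j (E.φ a') (E.φ b') =
        E.φ g * vv w j (E.φ a) (E.φ b) * (E.φ g)⁻¹ := by
      rw [g1, g2, conj_vv]
    rw [e5] at e1
    have e6 : (E.φ g)⁻¹ * (E.φ u'⁻¹ * E.φ u) * vv w j (E.φ a) (E.φ b) =
        (E.φ g)⁻¹ * ((E.φ u'⁻¹ * E.φ u) * vv w j (E.φ a) (E.φ b) * (E.φ u'⁻¹ * E.φ u)⁻¹) *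
          (E.φ u'⁻¹ * E.φ u) := by group
    rw [e6, e1]
    group
  obtain ⟨t, ht⟩ := h2 _ _ _ k1 e4
  obtain ⟨m, hm⟩ := E.lift (a := u) (b := u' * g * vv w j a b ^ t) (by
    rw [map_mul, map_mul, map_zpow, map_vv, ← ht, map_inv]
    group)
  have e7 : F (γ (E.φ a')) (γ (E.φ b')) = F (γ (E.φ a)) (γ (E.φ b)) := by
    have q1 : γ (E.φ a') = γ (E.φ a) := by
      rw [g1, map_mul, map_mul, map_inv, mul_comm, inv_mul_cancel_left]
    have q2 : γ (E.φ b') = γ (E.φ b) := by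
      rw [g2, map_mul, map_mul, map_inv, mul_comm, inv_mul_cancel_left]
    rw [q1, q2]
  rw [k3, k3', e7, e3, hm]
  generalize vv w j a b = V
  generalize F (γ (E.φ a)) (γ (E.φ b)) = n
  have q3 : ∀ (y U : E.A) (k : ℤ), U * (y * E.z ^ k) * U⁻¹ = U * y * U⁻¹ * E.z ^ k := by
    intro y U k
    have : U * (y * E.z ^ k) * U⁻¹ = U * y * (E.z ^ k * U⁻¹) := by group
    rw [this, ← E.cz]
    group
  rw [q3, q3]
  congr 1
  have q4 : u' * g * V ^ t * E.z ^ m * V ^ p * (u' * g * V ^ t * E.z ^ m)⁻¹ =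
      u' * g * V ^ t * (E.z ^ m * V ^ p) * (E.z ^ m)⁻¹ * (V ^ t)⁻¹ * g⁻¹ * u'⁻¹ := by group
  rw [q4, ← E.cz]
  have q5 : u' * g * V ^ t * (V ^ p * E.z ^ m) * (E.z ^ m)⁻¹ * (V ^ t)⁻¹ * g⁻¹ * u'⁻¹ =
      u' * g * (V ^ t * V ^ p) * (V ^ t)⁻¹ * g⁻¹ * u'⁻¹ := by group
  have q6 : V ^ t * V ^ p = V ^ p * V ^ t := by
    rw [← zpow_natCast V p, ← zpow_add, ← zpow_add, add_comm]
  rw [q5, q6, conj_pow]
  group

include hδ in
theorem one_step {G G' : Type} [Group G] [Group G'] (f : G →* G') (Xs : Set G) (p : ℕ)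
    (hE : ExtP (fun _ => p) Xs f) (γ : G →* Γ) (F : Γ → Γ → ℤ) (GP : G → G → Prop)
    (h1 : ∀ a b a' b' q : G, GP a b → GP a' b' → q * vv w j a b * q⁻¹ = vv w j a' b' →
      ∃ g, a' = g * a * g⁻¹ ∧ b' = g * b * g⁻¹)
    (h2 : ∀ a b q : G, GP a b → q * vv w j a b = vv w j a b * q → ∃ t : ℤ, q = vv w j a b ^ t)
    (h3 : ∀ a b a' b' q : G, GP a b → GP a' b' → q * vv w j a b * q⁻¹ ≠ (vv w j a' b')⁻¹)
    (E : CE G) :
    ∃ (E' : CE G') (g : E.A →* E'.A), (∀ a, E'.φ (g a) = f (E.φ a)) ∧ g E.z = E'.z ∧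
      Function.Surjective g ∧ ∀ a b u : E.A, GP (E.φ a) (E.φ b) → ∀ x ∈ Xs,
        (x = E.φ (u * vv w j a b * u⁻¹) ∨ x⁻¹ = E.φ (u * vv w j a b * u⁻¹)) →
        g (vv w j a b ^ p) = E'.z ^ F (γ (E.φ a)) (γ (E.φ b)) := by
  classical
  let s : G → E.A := fun x =>
    if h : ∃ y, SR w j γ F p GP E x y then h.choose
    else if h : ∃ y, SR w j γ F p GP E x⁻¹ y then (h.choose)⁻¹ else (E.sur x).choose ^ p
  have s1 : ∀ x y, SR w j γ F p GP E x y → s x = y := by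
    intro x y hy
    have h : ∃ y, SR w j γ F p GP E x y := ⟨y, hy⟩
    have e : s x = h.choose := dif_pos h
    rw [e]
    exact SR_uniq w j hδ h1 h2 h.choose_spec hy
  have hex : ∀ x y, SR w j γ F p GP E x⁻¹ y → ¬ ∃ y, SR w j γ F p GP E x y := by
    rintro x y ⟨a, b, u, k1, k2, -⟩ ⟨y', a', b', u', k1', k2', -⟩
    refine h3 _ _ _ _ (E.φ u'⁻¹ * E.φ u) k1 k1' ?_
    rw [k2'] at k2
    simp only [map_mul, map_inv, map_vv] at k2
    have e2 : E.φ u'⁻¹ * E.φ u * vv w j (E.φ a) (E.φ b) * (E.φ u'⁻¹ * E.φ u)⁻¹ =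
        (E.φ u')⁻¹ * (E.φ u * vv w j (E.φ a) (E.φ b) * (E.φ u)⁻¹) * E.φ u' := by
      rw [map_inv]
      group
    rw [e2, ← k2]
    group
  have s2 : ∀ x y, SR w j γ F p GP E x⁻¹ y → s x = y⁻¹ := by
    intro x y hy
    have h : ∃ y, SR w j γ F p GP E x⁻¹ y := ⟨y, hy⟩
    have e : s x = (h.choose)⁻¹ := (dif_neg (hex x y hy)).trans (dif_pos h)
    rw [e]
    congr 1
    exact SR_uniq w j hδ h1 h2 h.choose_spec hy
  have hφ : ∀ x y, SR w j γ F p GP E x y → E.φ y = x ^ p := by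
    rintro x y ⟨a, b, u, k1, rfl, rfl⟩
    simp only [map_mul, map_inv, map_pow, E.zz, mul_one, conj_pow]
  have s3 : ∀ x, E.φ (s x) = x ^ p := by
    intro x
    by_cases c1 : ∃ y, SR w j γ F p GP E x y
    · obtain ⟨y, hy⟩ := c1
      rw [s1 x y hy]
      exact hφ x y hy
    · by_cases c2 : ∃ y, SR w j γ F p GP E x⁻¹ y
      · obtain ⟨y, hy⟩ := c2
        rw [s2 x y hy, map_inv, hφ _ y hy, inv_pow, inv_inv]
      · have e : s x = (E.sur x).choose ^ p := (dif_neg c1).trans (dif_neg c2)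
        rw [e, map_pow, (E.sur x).choose_spec]
  obtain ⟨E', g, g1, g2, g3, g4⟩ := hE E s (fun x _ => s3 x)
  refine ⟨E', g, g1, g2, g3, ?_⟩
  have key : ∀ a b u : E.A,
      g (u * (vv w j a b ^ p * E.z ^ (-(F (γ (E.φ a)) (γ (E.φ b))))) * u⁻¹) = 1 →
      g (vv w j a b ^ p) = E'.z ^ F (γ (E.φ a)) (γ (E.φ b)) := by
    intro a b u h
    rw [map_mul g (u * _) u⁻¹, map_mul g u, map_inv g u, conj_eq_one_iff, map_mul, map_zpow,
      g2, zpow_neg] at h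
    exact mul_inv_eq_one.1 h
  rintro a b u hab x hx (hxe | hxe)
  · apply key a b u
    rw [← s1 x _ ⟨a, b, u, hab, hxe, rfl⟩]
    exact g4 x hx
  · apply key a b u
    have := g4 x hx
    rw [s2 x _ ⟨a, b, u, hab, hxe, rfl⟩, map_inv, inv_eq_one] at this
    exact this

end step

end Pool.Agent.Y314.HM
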