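import Pool.Agent.Y314.HM.Lim

/-!
# The tower of central extensions, several words (helper314)
-/

set_option autoImplicit false

namespace Pool.Agent.Y314.HM

open Pool.Agent.TH54.BU Pool.Agent.Y45.MON Pool.Agent.Y872.MON

section step

variable {r : ℕ} (w : WP r) (hδ : ∀ j, w.δ j = 1) {Γ : Type} [Group Γ]

/-- the special relators -/
def SR2 {G : Type} [Group G] (γ : G →* Γ) (F : Fin r → Γ → Γ → ℤ) (p : ℕ) (GP : G → G → Prop)
    (E : CE G) (x : G) (l s : E.A) : Prop :=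
  ∃ (j : Fin r) (a b u : E.A), GP (E.φ a) (E.φ b) ∧ l = u * vv w j a b * u⁻¹ ∧ x = E.φ l ∧
    s = l ^ p * E.z ^ (-(F j (γ (E.φ a)) (γ (E.φ b))))

include hδ in
theorem SR2_uniq {G : Type} [Group G] {γ : G →* Γ} {F : Fin r → Γ → Γ → ℤ}
    (hFc : ∀ j g c d, F j (g * c * g⁻¹) (g * d * g⁻¹) = F j c d) {p : ℕ}
    {GP : G → G → Prop} {E : CE G}
    (h1 : ∀ (j j' : Fin r) (a b a' b' q : G), GP a b → GP a' b' →
      q * vv w j a b * q⁻¹ = vv w j' a' b' → j = j' ∧ ∃ g, a' = g * a * g⁻¹ ∧ b' = g * b * g⁻¹)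
    (h2 : ∀ (j : Fin r) (a b q : G), GP a b → q * vv w j a b = vv w j a b * q →
      ∃ t : ℤ, q = vv w j a b ^ t)
    {x : G} {l l' s s' : E.A} (hs : SR2 w γ F p GP E x l s) (hs' : SR2 w γ F p GP E x l' s') :
    l = l' ∧ s = s' := by
  obtain ⟨j, a, b, u, k1, k2, k3, k4⟩ := hs
  obtain ⟨j', a', b', u', k1', k2', k3', k4'⟩ := hs'
  have e1 : (E.φ u'⁻¹ * E.φ u) * vv w j (E.φ a) (E.φ b) * (E.φ u'⁻¹ * E.φ u)⁻¹ =
      vv w j' (E.φ a') (E.φ b') := by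
    have := k3.symm.trans k3'
    rw [k2, k2'] at this
    simp only [map_mul, map_inv, map_vv] at this
    have e2 : E.φ u'⁻¹ * E.φ u * vv w j (E.φ a) (E.φ b) * (E.φ u'⁻¹ * E.φ u)⁻¹ =
        (E.φ u')⁻¹ * (E.φ u * vv w j (E.φ a) (E.φ b) * (E.φ u)⁻¹) * E.φ u' := by
      rw [map_inv]
      group
    rw [e2, this]
    group
  obtain ⟨rfl, g0, g1, g2⟩ := h1 _ _ _ _ _ _ _ k1 k1' e1
  obtain ⟨g, rfl⟩ := E.sur g0
  obtain ⟨k, hk⟩ := E.lift (a := a') (b := g * a * g⁻¹) (by rw [g1]; simp)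
  obtain ⟨m, hm⟩ := E.lift (a := b') (b := g * b * g⁻¹) (by rw [g2]; simp)
  have e3 : vv w j a' b' = g * vv w j a b * g⁻¹ := by
    rw [hk, hm, vv_cen w j (hδ j) _ _ _ _ (fun y => (E.cz y k).symm)
      (fun y => (E.cz y m).symm), conj_vv]
  -- the element which centralizes
  have e4 : (E.φ g)⁻¹ * (E.φ u'⁻¹ * E.φ u) * vv w j (E.φ a) (E.φ b) =
      vv w j (E.φ a) (E.φ b) * ((E.φ g)⁻¹ * (E.φ u'⁻¹ * E.φ u)) := by
    have e5 : vv w j (E.φ a') (E.φ b') =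
        E.φ g * vv w j (E.φ a) (E.φ b) * (E.φ g)⁻¹ := by
      rw [g1, g2, conj_vv]
    rw [e5] at e1
    have e6 : (E.φ g)⁻¹ * (E.φ u'⁻¹ * E.φ u) * vv w j (E.φ a) (E.φ b) =
        (E.φ g)⁻¹ * ((E.φ u'⁻¹ * E.φ u) * vv w j (E.φ a) (E.φ b) * (E.φ u'⁻¹ * E.φ u)⁻¹) *
          (E.φ u'⁻¹ * E.φ u) := by group
    rw [e6, e1]
    group
  obtain ⟨t, ht⟩ := h2 _ _ _ _ k1 e4
  obtain ⟨n, hn⟩ := E.lift (a := u) (b := u' * g * vv w j a b ^ t) (by
    rw [map_mul, map_mul, map_zpow, map_vv, ← ht, map_inv]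
    group)
  have e7 : F j (γ (E.φ a')) (γ (E.φ b')) = F j (γ (E.φ a)) (γ (E.φ b)) := by
    rw [g1, g2]
    simp only [map_mul, map_inv]
    exact hFc _ _ _ _
  have e8 : l = l' := by
    rw [k2, k2', e3, hn]
    generalize vv w j a b = V
    have q4 : u' * g * V ^ t * E.z ^ n * V * (u' * g * V ^ t * E.z ^ n)⁻¹ =
        u' * g * V ^ t * (E.z ^ n * V) * (E.z ^ n)⁻¹ * (V ^ t)⁻¹ * g⁻¹ * u'⁻¹ := by group
    rw [q4, ← E.cz]
    have q5 : u' * g * V ^ t * (V * E.z ^ n) * (E.z ^ n)⁻¹ * (V ^ t)⁻¹ * g⁻¹ * u'⁻¹ =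
        u' * g * (V ^ t * V) * (V ^ t)⁻¹ * g⁻¹ * u'⁻¹ := by group
    have q6 : V ^ t * V = V * V ^ t := (Commute.zpow_self V t).eq
    rw [q5, q6]
    group
  exact ⟨e8, by rw [k4, k4', e7, e8]⟩

include hδ in
theorem one_step2 {G G' : Type} [Group G] [Group G'] (f : G →* G') (Xs : Set G) (p : ℕ)
    (hE : ExtP (fun _ => p) Xs f) (γ : G →* Γ) (F : Fin r → Γ → Γ → ℤ)
    (hFc : ∀ j g c d, F j (g * c * g⁻¹) (g * d * g⁻¹) = F j c d) (GP : G → G → Prop)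
    (h1 : ∀ (j j' : Fin r) (a b a' b' q : G), GP a b → GP a' b' →
      q * vv w j a b * q⁻¹ = vv w j' a' b' → j = j' ∧ ∃ g, a' = g * a * g⁻¹ ∧ b' = g * b * g⁻¹)
    (h2 : ∀ (j : Fin r) (a b q : G), GP a b → q * vv w j a b = vv w j a b * q →
      ∃ t : ℤ, q = vv w j a b ^ t)
    (h3 : ∀ (j j' : Fin r) (a b a' b' q : G), GP a b → GP a' b' →
      q * vv w j a b * q⁻¹ ≠ (vv w j' a' b')⁻¹)
    (E : CE G) :
    ∃ (E' : CE G') (g : E.A →* E'.A), (∀ a, E'.φ (g a) = f (E.φ a)) ∧ g E.z = E'.z ∧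
      Function.Surjective g ∧ (∀ (j : Fin r) (a b u : E.A), GP (E.φ a) (E.φ b) → ∀ x ∈ Xs,
        (x = E.φ (u * vv w j a b * u⁻¹) ∨ x⁻¹ = E.φ (u * vv w j a b * u⁻¹)) →
        g (vv w j a b ^ p) = E'.z ^ F j (γ (E.φ a)) (γ (E.φ b))) ∧
      ∀ x ∈ Xs, ∃ l : E.A, E.φ l = x ∧ (g l ^ p = 1 ∨ ∃ j c d, g l ^ p = E'.z ^ F j c d ∨
        g l ^ p = E'.z ^ (-F j c d)) := by
  classical
  let P : G → E.A × E.A → Prop := fun x y => SR2 w γ F p GP E x y.1 y.2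
  let s : G → E.A := fun x =>
    if h : ∃ y, P x y then h.choose.2
    else if h : ∃ y, P x⁻¹ y then (h.choose.2)⁻¹ else (E.sur x).choose ^ p
  have s1 : ∀ x y, P x y → s x = y.2 := by
    intro x y hy
    have h : ∃ y, P x y := ⟨y, hy⟩
    have e : s x = h.choose.2 := dif_pos h
    rw [e]
    exact (SR2_uniq w hδ hFc h1 h2 h.choose_spec hy).2
  have hex : ∀ x y, P x⁻¹ y → ¬ ∃ y, P x y := by
    rintro x y ⟨j, a, b, u, k1, k2, k3, -⟩ ⟨y', j', a', b', u', k1', k2', k3', -⟩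
    refine h3 j j' _ _ _ _ (E.φ u'⁻¹ * E.φ u) k1 k1' ?_
    rw [k3', k2, k2'] at k3
    simp only [map_mul, map_inv, map_vv] at k3
    have e2 : E.φ u'⁻¹ * E.φ u * vv w j (E.φ a) (E.φ b) * (E.φ u'⁻¹ * E.φ u)⁻¹ =
        (E.φ u')⁻¹ * (E.φ u * vv w j (E.φ a) (E.φ b) * (E.φ u)⁻¹) * E.φ u' := by
      rw [map_inv]
      group
    rw [e2, ← k3]
    group
  have s2 : ∀ x y, P x⁻¹ y → s x = y.2⁻¹ := by
    intro x y hy
    have h : ∃ y, P x⁻¹ y := ⟨y, hy⟩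
    have e : s x = (h.choose.2)⁻¹ := (dif_neg (hex x y hy)).trans (dif_pos h)
    rw [e]
    congr 1
    exact (SR2_uniq w hδ hFc h1 h2 h.choose_spec hy).2
  have hφ : ∀ x y, P x y → E.φ y.2 = x ^ p := by
    rintro x ⟨l, y⟩ ⟨j, a, b, u, k1, k2, k3, k4⟩
    dsimp only at k2 k3 k4 ⊢
    rw [k4, k3, map_mul, map_pow, E.zz, mul_one]
  have s3 : ∀ x, E.φ (s x) = x ^ p ∧ (∃ l, E.φ l = x ∧ (s x = l ^ p ∨ ∃ j c d,
      s x = l ^ p * E.z ^ (-F j c d) ∨ s x = l ^ p * E.z ^ (F j c d))) := by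
    intro x
    by_cases c1 : ∃ y, P x y
    · obtain ⟨y, hy⟩ := c1
      rw [s1 x y hy]
      refine ⟨hφ x y hy, ?_⟩
      obtain ⟨j, a, b, u, k1, k2, k3, k4⟩ := hy
      exact ⟨y.1, k3.symm, Or.inr ⟨j, _, _, Or.inl k4⟩⟩
    · by_cases c2 : ∃ y, P x⁻¹ y
      · obtain ⟨y, hy⟩ := c2
        rw [s2 x y hy, map_inv, hφ _ y hy, inv_pow, inv_inv]
        refine ⟨rfl, ?_⟩
        obtain ⟨j, a, b, u, k1, k2, k3, k4⟩ := hy
        refine ⟨y.1⁻¹, by rw [map_inv, ← k3, inv_inv], Or.inr ⟨j, γ (E.φ a), γ (E.φ b),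
          Or.inr ?_⟩⟩
        rw [k4, mul_inv_rev, zpow_neg, inv_inv, inv_pow, ← E.cz]
      · have e : s x = (E.sur x).choose ^ p := (dif_neg c1).trans (dif_neg c2)
        rw [e, map_pow, (E.sur x).choose_spec]
        exact ⟨rfl, (E.sur x).choose, (E.sur x).choose_spec, Or.inl rfl⟩
  obtain ⟨E', g, g1, g2, g3, g4⟩ := hE E s (fun x _ => (s3 x).1)
  have hcj : ∀ (V u y : E.A), (∀ a, a * y = y * a) →
      (u * V * u⁻¹) ^ p * y = u * (V ^ p * y) * u⁻¹ := by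
    intro V u y hy
    rw [conj_pow, mul_assoc, hy]
    group
  have key : ∀ (j : Fin r) (a b u : E.A),
      g ((u * vv w j a b * u⁻¹) ^ p * E.z ^ (-(F j (γ (E.φ a)) (γ (E.φ b))))) = 1 →
      g (vv w j a b ^ p) = E'.z ^ F j (γ (E.φ a)) (γ (E.φ b)) := by
    intro j a b u h
    rw [hcj _ _ _ (fun a => E.cz a _), map_mul g (u * _) u⁻¹, map_mul g u, map_inv g u,
      conj_eq_one_iff, map_mul, map_zpow, g2, zpow_neg] at h
    exact mul_inv_eq_one.1 h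
  refine ⟨E', g, g1, g2, g3, ?_, ?_⟩
  · rintro j a b u hab x hx (hxe | hxe)
    · apply key j a b u
      have := g4 x hx
      have hP : P x (u * vv w j a b * u⁻¹,
        (u * vv w j a b * u⁻¹) ^ p * E.z ^ (-F j (γ (E.φ a)) (γ (E.φ b)))) :=
        ⟨j, a, b, u, hab, rfl, hxe, rfl⟩
      rw [s1 x _ hP] at this
      exact this
    · apply key j a b u
      have := g4 x hx
      have hP : P x⁻¹ (u * vv w j a b * u⁻¹,
        (u * vv w j a b * u⁻¹) ^ p * E.z ^ (-F j (γ (E.φ a)) (γ (E.φ b)))) :=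
        ⟨j, a, b, u, hab, rfl, hxe, rfl⟩
      rw [s2 x _ hP, map_inv, inv_eq_one] at this
      exact this
  · intro x hx
    obtain ⟨l, hl, h⟩ := (s3 x).2
    have h4 := g4 x hx
    refine ⟨l, hl, ?_⟩
    rcases h with h | ⟨j, c, d, h | h⟩
    · left
      rw [h, map_pow] at h4
      exact h4
    · right
      refine ⟨j, c, d, Or.inl ?_⟩
      rw [h, map_mul, map_pow, map_zpow, g2, zpow_neg] at h4
      exact mul_inv_eq_one.1 h4
    · right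
      refine ⟨j, c, d, Or.inr ?_⟩
      rw [h, map_mul, map_pow, map_zpow, g2] at h4
      rw [zpow_neg]
      exact eq_inv_of_mul_eq_one_left h4

theorem tower2 (w : WP r) (hδ : ∀ j, w.δ j = 1)
    (G : ℕ → Type) [∀ n, Group (G n)] (f : ∀ n, G n →* G (n + 1)) (Xs : ∀ n, Set (G n)) (p : ℕ)
    (hE : ∀ n, ExtP (fun _ => p) (Xs n) (f n)) (γ : ∀ n, G n →* Γ) (F : Fin r → Γ → Γ → ℤ)
    (hFc : ∀ j g c d, F j (g * c * g⁻¹) (g * d * g⁻¹) = F j c d)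
    (GP : ∀ n, G n → G n → Prop)
    (h1 : ∀ n, ∀ (j j' : Fin r) (a b a' b' q : G n), GP n a b → GP n a' b' →
      q * vv w j a b * q⁻¹ = vv w j' a' b' → j = j' ∧ ∃ g, a' = g * a * g⁻¹ ∧ b' = g * b * g⁻¹)
    (h2 : ∀ n, ∀ (j : Fin r) (a b q : G n), GP n a b → q * vv w j a b = vv w j a b * q →
      ∃ t : ℤ, q = vv w j a b ^ t)
    (h3 : ∀ n, ∀ (j j' : Fin r) (a b a' b' q : G n), GP n a b → GP n a' b' →
      q * vv w j a b * q⁻¹ ≠ (vv w j' a' b')⁻¹) (E0 : CE (G 0)) :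
    ∃ (E : ∀ n, CE (G n)) (g : ∀ n, (E n).A →* (E (n + 1)).A),
      (∀ n a, (E (n + 1)).φ (g n a) = f n ((E n).φ a)) ∧ (∀ n, g n (E n).z = (E (n + 1)).z) ∧
      (∀ n, Function.Surjective (g n)) ∧ (∀ (n : ℕ) (j : Fin r) (a b u : (E n).A),
        GP n ((E n).φ a) ((E n).φ b) → ∀ x ∈ Xs n,
        (x = (E n).φ (u * vv w j a b * u⁻¹) ∨ x⁻¹ = (E n).φ (u * vv w j a b * u⁻¹)) →
        g n (vv w j a b ^ p) = (E (n + 1)).z ^ F j (γ n ((E n).φ a)) (γ n ((E n).φ b))) ∧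
      ∀ n, ∀ x ∈ Xs n, ∃ l : (E n).A, (E n).φ l = x ∧ (g n l ^ p = 1 ∨ ∃ j c d,
        g n l ^ p = (E (n + 1)).z ^ F j c d ∨ g n l ^ p = (E (n + 1)).z ^ (-F j c d)) := by
  choose nx gx hx using fun n (E : CE (G n)) =>
    one_step2 w hδ (f n) (Xs n) p (hE n) (γ n) F hFc (GP n) (h1 n) (h2 n) (h3 n) E
  let E : ∀ n, CE (G n) := fun n => Nat.rec E0 (fun n E => nx n E) n
  exact ⟨E, fun n => gx n (E n), fun n => (hx n (E n)).1, fun n => (hx n (E n)).2.1,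
    fun n => (hx n (E n)).2.2.1, fun n => (hx n (E n)).2.2.2.1,
    fun n => (hx n (E n)).2.2.2.2⟩

end step

section

variable {r : ℕ} {w : WP r} {R0 N : ℕ} {C : Type} {Φ : Fin r → C → C → C}
  {ε : Fin r → C → C → ℕ} {G : ℕ → Type} [∀ n, Group (G n)] {H : ∀ n, GH (G n)}
  {f : ∀ n, G n →* G (n + 1)} {col : ∀ n, G n → C} {Mk : ∀ n, G n → Fin r → C → C → Prop}
  {Xs : ∀ n, Set (G n)} {L : Type} [Group L] {π : ∀ n, G n →* L}

theorem gp1' (S : Sq w R0 N Φ ε G H f col Mk Xs) : ∀ n, ∀ (j j' : Fin r) (a b a' b' q : G n),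
    GPr w H f n a b → GPr w H f n a' b' → q * vv w j a b * q⁻¹ = vv w j' a' b' →
    j = j' ∧ ∃ g, a' = g * a * g⁻¹ ∧ b' = g * b * g⁻¹ := by
  rintro (_ | n) j j' a b a' b' q h h' e
  · exact h.elim
  · obtain ⟨a0, b0, k, rfl, rfl⟩ := h
    obtain ⟨a0', b0', k', rfl, rfl⟩ := h'
    rw [vv_f, vv_f] at e
    obtain ⟨hj, g, g1, g2⟩ := (((S.st n).wr a0 b0 _ k j).2.2.2.2 a0' b0' _ k' j' q).1 e
    exact ⟨hj, f n g, by rw [g1]; simp, by rw [g2]; simp⟩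

theorem gp3' (S : Sq w R0 N Φ ε G H f col Mk Xs) : ∀ n, ∀ (j j' : Fin r) (a b a' b' q : G n),
    GPr w H f n a b → GPr w H f n a' b' → q * vv w j a b * q⁻¹ ≠ (vv w j' a' b')⁻¹ := by
  rintro (_ | n) j j' a b a' b' q h h' e
  · exact h.elim
  · obtain ⟨a0, b0, k, rfl, rfl⟩ := h
    obtain ⟨a0', b0', k', rfl, rfl⟩ := h'
    rw [vv_f, vv_f] at e
    exact (((S.st n).wr a0 b0 _ k j).2.2.2.2 a0' b0' _ k' j' q).2 e

/-- every nontrivial element of the limit comes from a primitive element -/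
theorem fromX (D : LD w R0 N Φ ε G H f col Mk Xs L π) {a : L} (ha : a ≠ 1) :
    ∃ (n : ℕ) (x u : G n) (k : ℤ), x ∈ Xs n ∧ a = π n (u * x ^ k * u⁻¹) := by
  obtain ⟨g, hg, hga⟩ := D.rk_mem a
  have hmin : ∀ (m : ℕ) (g : G m), IsOfFinOrder g → π m g = a → rk π a ≤ m :=
    fun m g h1 h2 => h2 ▸ rk_le h1
  generalize rk π a = m at *
  cases m with
  | zero => exact absurd (by rw [← hga, D.sq.free g hg, map_one]) ha
  | succ n =>
    rcases (D.sq.st n).tor g hg with ⟨g0, h1, h2⟩ | ⟨x, hx, u, k, h1⟩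
    · have := hmin n g0 h2 (by rw [← hga, ← h1, D.cmp])
      omega
    · exact ⟨n, x, u, k, hx, by rw [← hga, ← h1, D.cmp]⟩

/-- the limit of the extensions -/
theorem limE2 (D : LD w R0 N Φ ε G H f col Mk Xs L π) (hδ : ∀ j, w.δ j = 1) (p : ℕ)
    (hE : ∀ n, ExtP (fun _ => p) (Xs n) (f n)) (F : Fin r → L → L → ℤ)
    (hF : ∀ j a b, a * b = b * a → F j a b = 0)
    (hFc : ∀ j g c d, F j (g * c * g⁻¹) (g * d * g⁻¹) = F j c d) (E0 : CE (G 0)) :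
    ∃ B : CE L, (∀ (j : Fin r) (a b : B.A), vv w j a b ^ p = B.z ^ F j (B.φ a) (B.φ b)) ∧
      ((∀ j a b, (p : ℤ) ∣ F j a b) → ∀ g : L, ∃ b : B.A, B.φ b = g ∧ b ^ p = 1) := by
  obtain ⟨E, g, g1, g2, g3, g4, g5⟩ := tower2 w hδ G f Xs p hE π F hFc (GPr w H f) (gp1' D.sq)
    (fun n j => gp2 D.sq j n) (gp3' D.sq) E0
  obtain ⟨A, iA, ρ, r1, r2, r3⟩ := exists_lim (G := fun n => (E n).A) g g3
  obtain ⟨z, hz⟩ : ∃ z, z = ρ 0 (E 0).z := ⟨_, rfl⟩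
  have hzn : ∀ n, ρ n (E n).z = z := by
    intro n
    induction n with
    | zero => exact hz.symm
    | succ n ih => rw [← g2, r2, ih]
  have hzk : ∀ n (k : ℤ), ρ n ((E n).z ^ k) = z ^ k := fun n k => by rw [map_zpow, hzn]
  have hcen : ∀ (a : A) (k : ℤ), a * z ^ k = z ^ k * a := by
    intro a k
    obtain ⟨a, rfl⟩ := r1 0 a
    rw [← hzk 0, ← map_mul, ← map_mul, (E 0).cz]
  have hinf : ∀ k : ℤ, z ^ k = 1 → k = 0 := by
    intro k hk
    rw [← hzk 0] at hk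
    exact dies_z (A := fun n => (E n).A) (fun n => (E n).z) g2 (fun n => (E n).inf) k 0 _
      (r3 0 _ hk) rfl
  obtain ⟨Ψ, hΨ⟩ := lim_hom (A := fun n => (E n).A) g3 r1 r2 r3
    (fun n => (π n).comp (E n).φ) (fun n a => by
      show π (n + 1) ((E (n + 1)).φ (g n a)) = π n ((E n).φ a)
      rw [g1, D.cmp])
  have hΨ' : ∀ n a, Ψ (ρ n a) = π n ((E n).φ a) := hΨ
  have hΨs : Function.Surjective Ψ := by
    intro y
    obtain ⟨x, rfl⟩ := D.sur 0 y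
    obtain ⟨a, rfl⟩ := (E 0).sur x
    exact ⟨ρ 0 a, hΨ 0 a⟩
  have hker : ∀ a : A, Ψ a = 1 → ∃ k : ℤ, a = z ^ k := by
    intro a ha
    obtain ⟨a, rfl⟩ := r1 0 a
    rw [hΨ] at ha
    have key : ∀ n (y : G n), Dies f n y → ∀ a : (E n).A, (E n).φ a = y →
        ∃ k : ℤ, ρ n a = z ^ k := by
      intro n y h
      induction h with
      | one n =>
        intro a ha
        obtain ⟨k, hk⟩ := (E n).ker a ha
        exact ⟨k, by rw [hk, hzk]⟩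
      | step n y h ih =>
        intro a ha
        obtain ⟨k, hk⟩ := ih (g n a) (by rw [g1, ha])
        exact ⟨k, by rw [← hk, r2]⟩
    exact key 0 _ (D.ker 0 _ ha) a rfl
  have hz1 : Ψ z = 1 := by
    rw [hz, hΨ', (E 0).z1, map_one]
  let B : CE L :=
    { A := A
      grp := iA
      φ := Ψ
      sur := hΨs
      z := z
      cen := fun a => by
        have := hcen a 1
        rwa [zpow_one] at this
      ker := hker
      z1 := hz1
      inf := hinf }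
  refine ⟨B, ?_, ?_⟩
  · intro j (a : A) (b : A)
    show vv w j a b ^ p = z ^ F j (Ψ a) (Ψ b)
    by_cases hab : Ψ a * Ψ b = Ψ b * Ψ a
    · obtain ⟨c0, i, k, h1, h2⟩ := cyc D hab.symm
      obtain ⟨c, rfl⟩ := hΨs c0
      obtain ⟨m, hm⟩ := B.lift (a := a) (b := c ^ i) (by
        show Ψ a = Ψ (c ^ i)
        rw [map_zpow, h1])
      obtain ⟨l, hl⟩ := B.lift (a := b) (b := c ^ k) (by
        show Ψ b = Ψ (c ^ k)
        rw [map_zpow, h2])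
      have hm' : a = c ^ i * z ^ m := hm
      have hl' : b = c ^ k * z ^ l := hl
      rw [hF j _ _ hab, zpow_zero, vv_comm w j (hδ j) a b, one_pow]
      have c1 : Commute (c ^ i) (c ^ k) := (Commute.refl c).zpow_zpow i k
      have c2 : Commute (c ^ i) (z ^ l) := hcen _ _
      have c3 : Commute (z ^ m) (c ^ k * z ^ l) := (hcen _ _).symm
      rw [hm', hl']
      exact (Commute.mul_left (c1.mul_right c2) c3).eq
    · obtain ⟨n, h0, a1, b1, k1, k2, k3⟩ := main' D _ _ hab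
      obtain ⟨x, hx, u0, hxu⟩ := prim' D.sq j (n + 1) a1 b1 k1
      obtain ⟨a2, ha2⟩ := (E (n + 2)).sur (f (n + 1) a1)
      obtain ⟨b2, hb2⟩ := (E (n + 2)).sur (f (n + 1) b1)
      obtain ⟨u, rfl⟩ := (E (n + 2)).sur u0
      have e1 := g4 (n + 2) j a2 b2 u ⟨a1, b1, k1, ha2, hb2⟩ x hx (by
        rw [map_mul, map_mul, map_inv, map_vv, ha2, hb2]
        exact hxu)
      have e2 := congrArg (ρ (n + 3)) e1
      rw [r2, map_pow, map_vv, hzk] at e2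
      obtain ⟨h, rfl⟩ := hΨs h0
      have q1 : Ψ (ρ (n + 2) a2) = Ψ (h * a * h⁻¹) := by
        rw [hΨ', ha2, D.cmp, k2]
        simp
      have q2 : Ψ (ρ (n + 2) b2) = Ψ (h * b * h⁻¹) := by
        rw [hΨ', hb2, D.cmp, k3]
        simp
      obtain ⟨m, hm⟩ := B.lift (a := ρ (n + 2) a2) (b := (h * a * h⁻¹ : A)) q1
      obtain ⟨l, hl⟩ := B.lift (a := ρ (n + 2) b2) (b := (h * b * h⁻¹ : A)) q2
      have hm' : ρ (n + 2) a2 = h * a * h⁻¹ * z ^ m := hm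
      have hl' : ρ (n + 2) b2 = h * b * h⁻¹ * z ^ l := hl
      have t1 : F j (π (n + 2) ((E (n + 2)).φ a2)) (π (n + 2) ((E (n + 2)).φ b2)) =
          F j (Ψ a) (Ψ b) := by
        rw [← hΨ', ← hΨ', q1, q2]
        simp only [map_mul, map_inv]
        exact hFc _ _ _ _
      rw [t1, hm', hl', vv_cen w j (hδ j) _ _ _ _ (fun y => (hcen y m).symm)
        (fun y => (hcen y l).symm), conj_vv, conj_pow] at e2
      have e3 : vv w j a b ^ p = h⁻¹ * (h * vv w j a b ^ p * h⁻¹) * h := by group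
      rw [e3, e2, hcen]
      group
  · intro hp y
    by_cases hy : y = 1
    · exact ⟨(1 : A), by show Ψ 1 = y; rw [hy, map_one], one_pow _⟩
    obtain ⟨n, x, u0, k, hx, rfl⟩ := fromX D hy
    obtain ⟨l, hl, hl2⟩ := g5 n x hx
    obtain ⟨l', hl', hl2'⟩ : ∃ l' : (E n).A, (E n).φ l' = x ∧ g n l' ^ p = 1 := by
      have hgen : ∀ m : ℤ, (p : ℤ) ∣ m → g n l ^ p = (E (n + 1)).z ^ m →
          ∃ l' : (E n).A, (E n).φ l' = x ∧ g n l' ^ p = 1 := by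
        rintro _ ⟨t, rfl⟩ ht
        refine ⟨l * (E n).z ^ (-t), by rw [map_mul, (E n).zz, mul_one, hl], ?_⟩
        rw [map_mul, map_zpow, g2]
        have c1 : Commute (g n l) ((E (n + 1)).z ^ (-t)) := (E (n + 1)).cz _ _
        rw [c1.mul_pow, ht, ← zpow_natCast, ← zpow_mul, ← zpow_add]
        have : (p : ℤ) * t + -t * (p : ℤ) = 0 := by ring
        rw [this, zpow_zero]
      rcases hl2 with h | ⟨j, c, d, h | h⟩
      · exact ⟨l, hl, h⟩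
      · exact hgen _ (hp j c d) h
      · exact hgen _ ((hp j c d).neg_right) h
    obtain ⟨u, rfl⟩ := (E n).sur u0
    refine ⟨ρ (n + 1) (g n (u * l' ^ k * u⁻¹)), ?_, ?_⟩
    · show Ψ _ = _
      rw [r2, hΨ']
      simp only [map_mul, map_inv, map_zpow, hl']
    · rw [← map_pow, ← map_pow, conj_pow]
      have : g n ((l' ^ k) ^ p) = 1 := by
        rw [← zpow_natCast, ← zpow_mul, mul_comm, zpow_mul, zpow_natCast, map_zpow, map_pow,
          hl2', one_zpow]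
      rw [map_mul (g n) (u * _), map_mul (g n) u, this, mul_one, ← map_mul (g n),
        mul_inv_cancel, map_one, map_one]

end

end Pool.Agent.Y314.HM
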